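import Pool.Agent.H38.SE.TarB

set_option linter.unusedVariables false

open Ordinal Order Set
open scoped ZFSet

namespace SE

open SF

theorem pf_BG (hBA : T_BA) (hBC : T_BC) : T_BG := by
  obtain ⟨-, hA2, -, -, -, -, hA7⟩ := hBA
  obtain ⟨-, -, -, hC4, hC5, -, hC7, -⟩ := hBC
  intro L ρ r hρ hr hd h1 h2
  obtain ⟨-, hA, -⟩ := hA7 L ρ hρ
  have key : ∀ (α : Ordinal.{0}) (i : V), i.rank = α → i ∈ dm r → Co L r i := by
    intro α
    induction α using Ordinal.induction with
    | h α ih =>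
      intro i hi hir
      have hl : Lab L i := (hA i (hd hir)).1
      have hrk := (hA2 L i hl).2.2.2.2.1
      obtain ⟨hF, hdm, hap, -⟩ := hC5 (lS i) r hr
      have hpos : rst (lS i) r ∈ Pos L (lS i) := by
        refine (hC4 L (lS i) _).2 ⟨hF, fun k hk => ((hdm k).1 hk).2, fun k hk => ?_⟩
        have hk' := (hdm k).1 hk
        have hco : Co L r k := ih k.rank (hi ▸ hrk k hk'.2) k rfl hk'.1
        have he : app (rst (lS i) r) k = app r k := hap k hk'.2
        have he2 : rst (lS k) (rst (lS i) r) = rst (lS k) r := hC7 _ _ _ (hl.tr k hk'.2)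
        refine ⟨?_, ?_, ?_, ?_⟩
        · rw [he]; exact hco.eq
        · rw [he]; exact hco.s
        · rw [he]; exact hco.f
        · rw [he, he2]; exact hco.v
      obtain ⟨e1, e2, e3⟩ := h1 i hir
      refine ⟨e1, e2, e3, ?_⟩
      intro n hn
      obtain ⟨b, hb, j, hj, q, hq1, hq2, hq3, hq4⟩ := h2 i hir n hn
      exact ⟨b, hb, j, hj, hq1, hq2, hl.y.mono q b hq3 _ hpos hq4⟩
  exact (hC4 L ρ r).2 ⟨hr, hd, fun i hi => key _ i rfl hi⟩

end SE
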