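import Pool.Agent.H38.SE.TarB

set_option linter.unusedVariables false

open Ordinal Order Set
open scoped ZFSet

namespace SE

open SF

namespace BIaux

theorem mem_nS {m n : ℕ} : nS m ∈ nS n ↔ m < n := by
  unfold nS
  rw [Ordinal.mem_toZFSet_iff]
  constructor
  · rintro ⟨a, ha, h⟩
    have h2 : a = (m : Ordinal.{0}) := Ordinal.toZFSet_injective h
    rw [h2] at ha
    exact_mod_cast ha
  · intro h
    exact ⟨m, by exact_mod_cast h, rfl⟩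

theorem dm_mono {a b : V} (h : a ⊆ b) : dm a ⊆ dm b := by
  intro x hx
  obtain ⟨y, hy⟩ := mem_dm.1 hx
  exact mem_dm.2 ⟨y, h hy⟩

theorem mem_Fs {x y : V} : y ∈ Fs x ↔ y ⊆ x ∧ (y : Set V).Finite := by
  unfold Fs
  rw [ZFSet.mem_sep, ZFSet.mem_powerset]

end BIaux

open BIaux

theorem pf_BI (hAA : T_AA) (hAF : T_AF) (hBA : T_BA) (hBC : T_BC) (hBD : T_BD) (hBF : T_BF)
    (hBH : T_BH) : T_BI := by
  obtain ⟨-, -, -, hpr, -, -, hfr, -, -⟩ := hAA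
  obtain ⟨hsq, -, -, -, hF5, hF6, -⟩ := hAF
  obtain ⟨-, hA2, -, -, -, -, hA7⟩ := hBA
  obtain ⟨-, -, -, hC4, hC5, -, hC7, hC8, -, -, hC11⟩ := hBC
  obtain ⟨-, -, hD3, hD4, hD5, -, -, -⟩ := hBD
  obtain ⟨hF1, -⟩ := hBF
  obtain ⟨hH1, hH2, hH3⟩ := hBH
  intro L ρ hρ
  obtain ⟨hρtr, hA, -⟩ := hA7 L ρ hρ
  have h1 : ∀ s Y p (n : ℕ), s ⊆ ρ → Tr s → Nam L s Y → p ∈ Pos L ρ → ∃ q ∈ Pos L ρ, Le q p ∧
    (∃ b ∈ sq, dm b = nS n ∧ ZFSet.pair (rst s q) b ∈ Y) ∧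
    ∀ i, i ∉ s → (i ∈ dm q ↔ i ∈ dm p) ∧ app q i = app p i := by
    intro s Y p n hs hst hY hp
    obtain ⟨hr1, hr2, hr3⟩ := hD3 L ρ s p hp (fun i hi _ => hst i hi)
    obtain ⟨q', hq', hle, b, hb, hbY⟩ := hY.den (nS n) (mem_om.2 ⟨n, rfl⟩) (rst s p) hr1
    obtain ⟨q2, hq2, b2, hb2, he⟩ := hY.sub _ hbY
    obtain ⟨e1, e2⟩ := ZFSet.pair_injective he
    obtain ⟨k1, k2, k3, k4, k5, k6, k7⟩ := hF1 L ρ s p q' hρ hs hst hp hq' hle
    refine ⟨jn q' p, k2, k4, ⟨b, e2 ▸ hb2, hb, by rw [k5]; exact hbY⟩, ?_⟩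
    intro i hi
    have hiq : i ∉ dm q' := fun h => hi (((hC4 L s q').1 hq').2.1 h)
    have hd : i ∈ dm (jn q' p) ↔ i ∈ dm p := by
      rw [k6, ZFSet.mem_union]
      exact ⟨fun h => h.resolve_left hiq, Or.inr⟩
    refine ⟨hd, ?_⟩
    by_cases hip : i ∈ dm p
    · exact k7 i hip hi
    · rw [hC8 _ _ hip, hC8 _ _ (fun h => hip (hd.1 h))]
  have h2 : ∀ p i u (n : ℕ), p ∈ Pos L ρ → i ∈ dm p → dm (fst (app p i)) = nS n → ∃ q ∈ Pos L ρ,
    Le q p ∧ dm (fst (app q i)) = nS (n + 1) ∧ app (fst (app q i)) (nS n) ≠ u ∧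
    ∀ k, k ∉ insert i (lS i) → (k ∈ dm q ↔ k ∈ dm p) ∧ app q k = app p k := by
    intro p i u n hp hi hdn
    have hiρ : i ∈ ρ := ((hC4 L ρ p).1 hp).2.1 hi
    obtain ⟨hl, hls, hlc, -, -⟩ := hA i hiρ
    have hnot : i ∉ lS i := (hA2 L i hl).2.2.2.2.2.1
    obtain ⟨htr, -, -⟩ := hA7 L (lS i) hlc
    obtain ⟨q1, hq1, hle1, ⟨b, hbs, hbn, hbY⟩, hq1k⟩ := h1 (lS i) (lY i) p n hls htr hl.y hp
    have hi1 : i ∈ dm q1 := (hq1k i hnot).1.2 hi
    have hap1 : app q1 i = app p i := (hq1k i hnot).2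
    have hco : Co L q1 i := ((hC4 L ρ q1).1 hq1).2.2 i hi1
    have hfin : (snd (app q1 i) : Set V).Finite := (mem_Fs.1 hco.f).2
    let B : Set V := insert u ((fun l => app l (nS n)) '' (snd (app q1 i) : Set V))
    have hB : B.Finite := (hfin.image _).insert u
    have hinj : Function.Injective (fun j : V => ZFSet.pair b j) := by
      intro x y h
      exact (ZFSet.pair_injective h).2
    obtain ⟨j, hj, hjF⟩ := hfr ((fun j : V => ZFSet.pair b j) ⁻¹' B) (hB.preimage hinj.injOn)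
    have hju : ZFSet.pair b j ≠ u := fun h => hjF (by
      show ZFSet.pair b j ∈ B
      rw [h]; exact Set.mem_insert _ _)
    have hjl : ∀ l ∈ snd (app q1 i), ZFSet.pair b j ≠ app l (nS n) := by
      intro l hl' h
      exact hjF (by
        show ZFSet.pair b j ∈ B
        rw [h]; exact Set.mem_insert_of_mem _ ⟨l, hl', rfl⟩)
    have hdn1 : dm (fst (app q1 i)) = nS n := by rw [hap1]; exact hdn
    obtain ⟨m1, m2⟩ := hH3 L ρ q1 i n b j hρ hq1 hi1 hdn1 hbs hbn hbY hj hjl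
    obtain ⟨-, u2, u3, u4, -⟩ := hC11 q1 i (ZFSet.pair (insert (ZFSet.pair (nS n) (ZFSet.pair b j))
      (fst (app q1 i))) (snd (app q1 i))) ((hC4 L ρ q1).1 hq1).1
    obtain ⟨m, hm⟩ := (hsq _).1 hco.s
    have hmn : m = n := nS_inj.1 ((hF5 m _ hm).2.2.1.symm.trans hdn1)
    subst hmn
    have hbh : b ∈ hf := by
      obtain ⟨m', hm'⟩ := (hsq _).1 hbs
      exact (hF5 m' _ hm').1
    obtain ⟨w1, w2, -⟩ := hF6 m (fst (app q1 i)) (ZFSet.pair b j) hm (hpr b hbh j hj)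
    refine ⟨_, m1, hD5 L ρ p q1 _ hp hq1 m1 m2 hle1, ?_, ?_, ?_⟩
    · rw [u3, fst_pair]; exact (hF5 _ _ w1).2.2.1
    · rw [u3, fst_pair, w2]; exact hju
    · intro k hk
      have hk1 : k ≠ i := fun h => hk (ZFSet.mem_insert_iff.2 (Or.inl h))
      have hk2 : k ∉ lS i := fun h => hk (ZFSet.mem_insert_iff.2 (Or.inr h))
      rw [u2, u4 k hk1, ZFSet.mem_insert_iff]
      refine ⟨⟨fun h => (hq1k k hk2).1.1 (h.resolve_left hk1), fun h => Or.inr ((hq1k k hk2).1.2 h)⟩,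
        (hq1k k hk2).2⟩
  refine ⟨h1, h2, ?_, ?_⟩
  · intro p A n hp hAf hAρ
    have one : ∀ (i : V), i ∈ ρ → ∀ q ∈ Pos L ρ, ∃ q' ∈ Pos L ρ, Le q' q ∧ i ∈ dm q' ∧
        nS n ∈ dm (fst (app q' i)) := by
      intro i hi q hq
      have h0 : ∃ q' ∈ Pos L ρ, Le q' q ∧ i ∈ dm q' := by
        by_cases h : i ∈ dm q
        · exact ⟨q, hq, (hD4 L ρ q hq).1, h⟩
        · obtain ⟨a1, a2⟩ := hH1 L ρ q i hρ hq hi h
          refine ⟨_, a1, a2, ?_⟩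
          rw [(hC11 q i _ ((hC4 L ρ q).1 hq).1).2.1]
          exact ZFSet.mem_insert_iff.2 (Or.inl rfl)
      have hm : ∀ m : ℕ, ∃ q' ∈ Pos L ρ, Le q' q ∧ i ∈ dm q' ∧ ∃ k, m ≤ k ∧
          dm (fst (app q' i)) = nS k := by
        intro m
        induction m with
        | zero =>
          obtain ⟨q', a1, a2, a3⟩ := h0
          have hco : Co L q' i := ((hC4 L ρ q').1 a1).2.2 i a3
          obtain ⟨k, hk⟩ := (hsq _).1 hco.s
          exact ⟨q', a1, a2, a3, k, Nat.zero_le _, (hF5 k _ hk).2.2.1⟩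
        | succ m ih =>
          obtain ⟨q', a1, a2, a3, k, hk, hd⟩ := ih
          obtain ⟨q2, b1, b2, b3, -, -⟩ := h2 q' i ∅ k a1 a3 hd
          exact ⟨q2, b1, hD5 L ρ q q' q2 hq a1 b1 b2 a2, (b2 i a3).1, k + 1,
            Nat.succ_le_succ hk, b3⟩
      obtain ⟨q', a1, a2, a3, k, hk, hd⟩ := hm (n + 1)
      exact ⟨q', a1, a2, a3, by rw [hd]; exact mem_nS.2 hk⟩
    have all : ∀ S : Set V, S.Finite → (∀ i ∈ S, i ∈ ρ) → ∃ q ∈ Pos L ρ, Le q p ∧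
        ∀ i ∈ S, i ∈ dm q ∧ nS n ∈ dm (fst (app q i)) := by
      intro S hS
      induction S, hS using Set.Finite.induction_on with
      | empty => exact fun _ => ⟨p, hp, (hD4 L ρ p hp).1, fun i hi => hi.elim⟩
      | @insert a S ha hS ih =>
        intro hSρ
        obtain ⟨q, q1, q2, q3⟩ := ih (fun i hi => hSρ i (Set.mem_insert_of_mem _ hi))
        obtain ⟨q', r1, r2, r3, r4⟩ := one a (hSρ a (Set.mem_insert _ _)) q q1
        refine ⟨q', r1, hD5 L ρ p q q' hp q1 r1 r2 q2, ?_⟩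
        intro i hi
        rcases Set.mem_insert_iff.1 hi with rfl | hi
        · exact ⟨r3, r4⟩
        · have := r2 i (q3 i hi).1
          exact ⟨this.1, dm_mono this.2.s (q3 i hi).2⟩
    exact all (A : Set V) hAf (fun i hi => hAρ hi)
  · intro p i l hp hi hl
    have h0 : ∃ q' ∈ Pos L ρ, Le q' p ∧ i ∈ dm q' := by
      by_cases h : i ∈ dm p
      · exact ⟨p, hp, (hD4 L ρ p hp).1, h⟩
      · obtain ⟨a1, a2⟩ := hH1 L ρ p i hρ hp hi h
        refine ⟨_, a1, a2, ?_⟩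
        rw [(hC11 p i _ ((hC4 L ρ p).1 hp).1).2.1]
        exact ZFSet.mem_insert_iff.2 (Or.inl rfl)
    obtain ⟨q, a1, a2, a3⟩ := h0
    have hFl : ({l} : V) ∈ Fs L := by
      rw [mem_Fs]
      constructor
      · intro x hx
        rw [ZFSet.mem_singleton.1 hx]; exact hl
      · have : (({l} : V) : Set V) = {l} := by
          ext x
          exact ZFSet.mem_singleton
        rw [this]; exact Set.finite_singleton l
    obtain ⟨b1, b2⟩ := hH2 L ρ q i {l} hρ a1 a3 hFl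
    obtain ⟨-, u2, u3, -⟩ := hC11 q i (ZFSet.pair (fst (app q i)) (snd (app q i) ∪ {l}))
      ((hC4 L ρ q).1 a1).1
    refine ⟨_, b1, hD5 L ρ p q _ hp a1 b1 b2 a2, ?_, ?_⟩
    · rw [u2]; exact ZFSet.mem_insert_iff.2 (Or.inl rfl)
    · rw [u3, snd_pair]; exact ZFSet.mem_union.2 (Or.inr (ZFSet.mem_singleton.2 rfl))

end SE
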