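import Pool.Agent.H38.SE.TarB

set_option linter.unusedVariables false

open Ordinal Order Set
open scoped ZFSet

namespace SE

open SF

theorem BMaux.inC {M : V → Prop} {a : V} (h : M a) : In M (fun _ => a) := fun _ => h

open BMaux in
theorem pf_BM (hBA : T_BA) (hBBa : T_BBa) (hBC : T_BC) (hBD : T_BD) (hBF : T_BF) (hBJ : T_BJ)
    (hFM : T_FM) : T_BM := by
  obtain ⟨-, -, -, -, -, -, hA7⟩ := hBA
  obtain ⟨hrst, -, -, -, -, -, -, -, -, -, -, hLe, -⟩ := hBBa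
  obtain ⟨-, -, -, hC4, hC5, -⟩ := hBC
  obtain ⟨-, hD2, hD3, hD4, hD5, hD6, hD7, -⟩ := hBD
  obtain ⟨hF1, -⟩ := hBF
  intro D hD ρ0 ρ G0 p hN0 hN hc hs ht hg hp hpr
  obtain ⟨hL, hHt, hHN, hPR, hG⟩ := hBJ D hD
  obtain ⟨-, -, hcl⟩ := hA7 D.L ρ hc
  have hc0 : Cld D.L ρ0 := hcl ρ0 hs ht
  obtain ⟨⟨zW, hNW, hWG, hctb, -⟩, ⟨hsub, hemp, hup, hcmp, hrs⟩, hmeet⟩ := (hG ρ0 hN0 hc0).2 G0 hg
  have zm : ZFm (D.W G0) := zW.toZFCm.toZFm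
  have zN : ZFm D.N := hD.zfc.toZFCm.toZFm
  have hPρ : D.N (D.P ρ) := (hPR ρ hN).1
  -- restriction of conditions
  have hres : ∀ q ∈ D.P ρ, rst ρ0 q ∈ D.P ρ0 := fun q hq =>
    (hD3 D.L ρ ρ0 q hq (fun i hi _ => ht i hi)).1
  have hFF : ∀ q ∈ D.P ρ, FF q := fun q hq => ((hC4 D.L ρ q).1 hq).1
  have hinc : ∀ q ∈ D.P ρ0, q ∈ D.P ρ := fun q hq =>
    hD2 D.L ρ0 ρ q hq (fun i hi => hs (((hC4 D.L ρ0 q).1 hq).2.1 hi))
  let Q : V := (D.P ρ).sep fun q => rst ρ0 q ∈ G0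
  let RQ : V := (ZFSet.prod Q Q).sep fun z => Le (fst z) (snd z)
  have mQ : ∀ q, q ∈ Q ↔ q ∈ D.P ρ ∧ rst ρ0 q ∈ G0 := fun q => ZFSet.mem_sep
  have mRQ : ∀ q s, ZFSet.pair q s ∈ RQ ↔ q ∈ Q ∧ s ∈ Q ∧ Le q s := by
    intro q s
    show ZFSet.pair q s ∈ (ZFSet.prod Q Q).sep _ ↔ _
    rw [ZFSet.mem_sep, ZFSet.pair_mem_prod, fst_pair, snd_pair, and_assoc]
  have hpQ : p ∈ Q := (mQ p).2 ⟨hp, hpr⟩
  have hPo : IsPo Q RQ := by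
    refine ⟨⟨p, hpQ⟩, ?_, ?_, ?_⟩
    · intro z hz
      obtain ⟨h1, -⟩ := ZFSet.mem_sep.1 hz
      obtain ⟨a, ha, b, hb, e⟩ := ZFSet.mem_prod.1 h1
      exact ⟨a, ha, b, hb, e⟩
    · intro q hq
      exact (mRQ q q).2 ⟨hq, hq, (hD4 D.L ρ q ((mQ q).1 hq).1).1⟩
    · intro a b c hab hbc
      obtain ⟨h1, h2, h3⟩ := (mRQ a b).1 hab
      obtain ⟨h4, h5, h6⟩ := (mRQ b c).1 hbc
      exact (mRQ a c).2 ⟨h1, h5, hD5 D.L ρ c b a ((mQ c).1 h5).1 ((mQ b).1 h2).1 ((mQ a).1 h1).1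
        h3 h6⟩
  obtain ⟨g, hgen, hpg⟩ := hFM (D.W G0) Q RQ p hctb hPo hpQ
  obtain ⟨hfil, hmt⟩ := hgen
  have hgQ : ∀ q ∈ g, q ∈ Q := fun q hq => hfil.sub hq
  have hgup : ∀ q ∈ g, ∀ s ∈ D.P ρ, Le q s → s ∈ g := by
    intro q hq s hs' hle
    have hqQ := (mQ q).1 (hgQ q hq)
    have h1 : Le (rst ρ0 q) (rst ρ0 s) := hD6 ρ0 s q (hFF s hs') (hFF q hqQ.1) hle
    have h2 : rst ρ0 s ∈ G0 := hup _ hqQ.2 _ (hres s hs') h1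
    exact hfil.up q hq s ((mRQ q s).2 ⟨hgQ q hq, (mQ s).2 ⟨hs', h2⟩, hle⟩)
  have hgdir : ∀ q ∈ g, ∀ s ∈ g, ∃ t ∈ g, Le t q ∧ Le t s := by
    intro q hq s hs'
    obtain ⟨t, ht', h1, h2⟩ := hfil.dir q hq s hs'
    exact ⟨t, ht', ((mRQ t q).1 h1).2.2, ((mRQ t s).1 h2).2.2⟩
  refine ⟨g, ⟨⟨fun q hq => ((mQ q).1 (hgQ q hq)).1, hfil.ne, ?_, ?_⟩, ?_⟩, hpg, ?_⟩
  · intro q hq s hqs
    obtain ⟨-, h2, h3⟩ := (hD7 D.L ρ s q).1 hqs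
    exact hgup q hq s h2 h3
  · intro q hq s hs'
    obtain ⟨t, ht', h1, h2⟩ := hgdir q hq s hs'
    have e1 := ((mQ t).1 (hgQ t ht')).1
    have e2 := ((mQ q).1 (hgQ q hq)).1
    have e3 := ((mQ s).1 (hgQ s hs')).1
    exact ⟨t, ht', (hD7 D.L ρ q t).2 ⟨e1, e2, h1⟩, (hD7 D.L ρ s t).2 ⟨e1, e3, h2⟩⟩
  · intro D' hD' hdn
    have hD1 : D.W G0 (D'.sep fun d => rst ρ0 d ∈ G0) := by
      have hT := Tm.sep (R := fun _ v => rst (v 2) (v 0) ∈ v 3) (f := fun _ v => v 0)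
        (Dfb.mem (hrst.at2 (Tm.var 2) (Tm.var 0)) (Tm.var 3)) (Tm.var 0)
      exact hT.1 (D.W G0) zm (cons D' (cons ρ0 (fun _ => G0)))
        (((inC hWG).cons (hNW _ hN0)).cons (hNW _ hD'))
    have hdense : IsDense Q RQ (D'.sep fun d => rst ρ0 d ∈ G0) := by
      refine ⟨fun d hd => ?_, fun q hq => ?_⟩
      · obtain ⟨h1, h2⟩ := ZFSet.mem_sep.1 hd
        exact (mQ d).2 ⟨hdn.1 h1, h2⟩
      · obtain ⟨hqP, hqG⟩ := (mQ q).1 hq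
        have hNP := zN.trans _ hPρ q hqP
        have hX : D.N (imS (D'.sep fun d => Le d q) fun d => rst ρ0 d) := by
          have hT1 := Tm.sep (R := fun _ v => Le (v 0) (v 2)) (f := fun _ v => v 0)
            (hLe.at2 (Tm.var 0) (Tm.var 2)) (Tm.var 0)
          have hT2 := Tm.image (f := fun _ v => (v 0).sep fun x => Le x (v 1))
            (g := fun _ v => rst (v 3) (v 0)) hT1 (hrst.at2 (Tm.var 3) (Tm.var 0))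
          exact hT2.1 D.N zN (cons D' (cons q (fun _ => ρ0)))
            (((inC hN0).cons hNP).cons hD')
        obtain ⟨r, hrG, hrX, -⟩ := hmeet _ (rst ρ0 q) hX hqG (by
          intro r0 hr0 hle
          obtain ⟨-, k2, k3, k4, k5, -, -⟩ := hF1 D.L ρ ρ0 q r0 hc hs ht hqP hr0 hle
          obtain ⟨d, hd, hdj⟩ := hdn.2 _ k2
          obtain ⟨d1, -, d3⟩ := (hD7 D.L ρ _ d).1 hdj
          have hdq : Le d q := hD5 D.L ρ q _ d hqP k2 d1 d3 k4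
          refine ⟨rst ρ0 d, mem_imS.2 ⟨d, ZFSet.mem_sep.2 ⟨hd, hdq⟩, rfl⟩, hres d d1, ?_⟩
          have := hD6 ρ0 _ d (hFF _ k2) (hFF d d1) d3
          rwa [k5] at this)
        obtain ⟨d, hd, rfl⟩ := mem_imS.1 hrX
        obtain ⟨hd1, hd2⟩ := ZFSet.mem_sep.1 hd
        exact ⟨d, ZFSet.mem_sep.2 ⟨hd1, hrG⟩, (mRQ d q).2 ⟨(mQ d).2 ⟨hdn.1 hd1, hrG⟩, hq, hd2⟩⟩
    obtain ⟨d, hdg, hdD⟩ := hmt _ hD1 hdense
    exact ⟨d, hdg, (ZFSet.mem_sep.1 hdD).1⟩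
  · ext r
    unfold gs
    rw [ZFSet.mem_sep]
    constructor
    · rintro ⟨hr, hdr⟩
      have hrQ := (mQ r).1 (hgQ r hr)
      have e : rst ρ0 r = r := (hC5 ρ0 r (hFF r hrQ.1)).2.2.2 hdr
      rw [← e]; exact hrQ.2
    · intro hr
      have hrP0 : r ∈ D.P ρ0 := hsub hr
      have hrP : r ∈ D.P ρ := hinc r hrP0
      have hdr : dm r ⊆ ρ0 := ((hC4 D.L ρ0 r).1 hrP0).2.1
      refine ⟨?_, hdr⟩
      have hQW : D.W G0 Q := by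
        have hT := Tm.sep (R := fun _ v => rst (v 2) (v 0) ∈ v 3) (f := fun _ v => v 0)
          (Dfb.mem (hrst.at2 (Tm.var 2) (Tm.var 0)) (Tm.var 3)) (Tm.var 0)
        exact hT.1 (D.W G0) zm (cons (D.P ρ) (cons ρ0 (fun _ => G0)))
          (((inC hWG).cons (hNW _ hN0)).cons (hNW _ hPρ))
      have hEW : D.W G0 (Q.sep fun q => Le q r) := by
        have hT1 := Tm.sep (R := fun _ v => Le (v 0) (v 2)) (f := fun _ v => v 0)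
          (hLe.at2 (Tm.var 0) (Tm.var 2)) (Tm.var 0)
        exact hT1.1 (D.W G0) zm (cons Q (fun _ => r))
          ((inC (zm.trans _ hWG r hr)).cons hQW)
      have hdense : IsDense Q RQ (Q.sep fun q => Le q r) := by
        refine ⟨fun q hq => (ZFSet.mem_sep.1 hq).1, fun q hq => ?_⟩
        obtain ⟨hqP, hqG⟩ := (mQ q).1 hq
        obtain ⟨-, c2, c3, c4⟩ := hcmp (rst ρ0 q) hqG r hr
        have hj0 : jn r (rst ρ0 q) ∈ D.P ρ0 := hsub c2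
        obtain ⟨-, k2, k3, k4, k5, -, -⟩ := hF1 D.L ρ ρ0 q _ hc hs ht hqP hj0 c4
        have hin : jn (jn r (rst ρ0 q)) q ∈ Q := (mQ _).2 ⟨k2, by rw [k5]; exact c2⟩
        exact ⟨_, ZFSet.mem_sep.2 ⟨hin, hD5 D.L ρ r _ _ hrP (hinc _ hj0) k2 k3 c3⟩,
          (mRQ _ _).2 ⟨hin, hq, k4⟩⟩
      obtain ⟨q, hqg, hqE⟩ := hmt _ hEW hdense
      exact hgup q hqg r hrP (ZFSet.mem_sep.1 hqE).2

end SE
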