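import Pool.Agent.H9.SE.TarL

/-! # LC2: the Luzin set is an uncountable set of reals in the ground model -/

set_option linter.unusedVariables false

open Ordinal Order Set
open scoped ZFSet

namespace SE

open SF CAA

theorem LC2.mono {α β : Ordinal.{0}} (h : α ≤ β) : LA ∅ α ⊆ LA ∅ β := Lh_mono h

theorem LC2.mem {M : V → Prop} (k : ZFm M) {α : Ordinal.{0}} (h : M α.toZFSet) : M (LA ∅ α) := by
  have h1 : M (LAS ∅ α.toZFSet) := (Tm.LAS (f := fun _ _ => ∅) (g := fun _ v => v 0) Tm.empty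
    (Tm.var 0)).1 M k (fun _ => α.toZFSet) fun _ => h
  rw [LAS_ord] at h1
  exact h1

/-- the triple for `η` is below `μ` -/
theorem LC2.tri (LA3 : T_LA3) (LA4 : T_LA4) (LA5 : T_LA5) (LG2 : T_LG2) {ix : V → V → V}
    (hix : IsIx ix) {τ μ κ : Ordinal.{0}} (G : Gnd τ μ κ) {η : Ordinal.{0}}
    (hη : Ad (· ∈ LA ∅ τ) η) {β ρ ξ : Ordinal.{0}}
    (h : Lst ix (LA ∅ η) β.toZFSet ρ.toZFSet ξ.toZFSet) : β < μ ∧ ρ < μ ∧ ξ < μ := by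
  have h1 : η < μ := ((LA5 ix hix τ μ κ G).2.1 η hη).1
  have h2 : LA ∅ η ∈ LA ∅ μ := LC2.mem G.zμ ((G.ordμ η).2 h1)
  obtain ⟨β', ρ', ξ', a1, a2, a3, a4, -⟩ := LA4 ix hix μ G.zμ G.ordμ η h2
    ((LG2 τ μ κ G).2.1 _ h2)
  obtain ⟨e1, e2, e3⟩ := (LA3 ix (LA ∅ η)).2 β ρ ξ β' ρ' ξ' h a4
  subst e1 e2 e3
  exact ⟨a1, a2, a3⟩

theorem pf_LC2 : T_AC → T_LA2 → T_LA3 → T_LA4 → T_LA5 → T_LG2 → T_LC2 := by
  intro AC LA2 LA3 LA4 LA5 LG2 ix hix τ μ κ G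
  have kτ : ZFm (· ∈ LA ∅ τ) := G.zfc.toZFCm.toZFm
  obtain ⟨a1, a2, a3⟩ := LA5 ix hix τ μ κ G
  have hμτ : μ < τ := G.μκ.trans G.κτ
  have Lμ : LA ∅ μ ∈ LA ∅ τ := LC2.mem kτ ((G.ord μ).2 hμτ)
  have memLL : ∀ l, l ∈ LL ix τ μ ↔ ∃ η, Ad (· ∈ LA ∅ τ) η ∧ Lz ix η l := by
    intro l
    unfold LL
    rw [ZFSet.mem_sep]
    constructor
    · exact fun h => h.2
    · rintro ⟨η, hη, hl⟩
      obtain ⟨l', -, h2, -, -, h5⟩ := (a2 η hη).2.2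
      rw [h5 l hl]
      exact ⟨h2, η, hη, by rw [← h5 l hl]; exact hl⟩
  have e1 : LL ix τ μ = (LA ∅ μ).sep fun l => ILf ix (· ∈ LA ∅ τ) (cons l fun _ => LA ∅ μ) := by
    ext l
    unfold LL
    rw [ZFSet.mem_sep, ZFSet.mem_sep]
    refine and_congr_right fun _ => ?_
    constructor
    · rintro ⟨η, hη, β, ρ, ξ, h1, h2⟩
      obtain ⟨b1, b2, b3⟩ := LC2.tri LA3 LA4 LA5 LG2 hix G hη h1
      exact ⟨η, β, ρ, ξ, (G.ord _).2 ((a2 η hη).1.trans hμτ), (G.ord _).2 (b1.trans hμτ),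
        (G.ord _).2 (b2.trans hμτ), (G.ord _).2 (b3.trans hμτ), hη, h1, h2⟩
    · rintro ⟨η, β, ρ, ξ, -, -, -, -, hη, h1, h2⟩
      exact ⟨η, hη, β, ρ, ξ, h1, h2⟩
  have mLL : LL ix τ μ ∈ LA ∅ τ := by
    rw [e1]
    exact (Tm.sep (LA2 ix hix).2.2 (Tm.var 0)).1 _ kτ (fun _ => LA ∅ μ) fun _ => Lμ
  have sLL : LL ix τ μ ⊆ LA ∅ μ := fun l hl => (ZFSet.mem_sep.1 hl).1
  refine ⟨(LG2 τ μ κ G).2.2 _ sLL mLL, ?_, ?_, ?_⟩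
  · intro l hl
    obtain ⟨η, hη, β, ρ, ξ, h1, rfl⟩ := (memLL l).1 hl
    exact h1.c.1
  · intro hC
    -- the least level
    have hR : Tm ZFm (fun _ v => (ZFSet.prod (v 0) (v 1)).sep fun z =>
        fst z ∈ LAS ∅ (snd z) ∧ ∀ ε ∈ snd z, fst z ∉ LAS ∅ ε) := by
      refine Tm.sep (R := fun _ w => fst (w 0) ∈ LAS ∅ (snd (w 0)) ∧
        ∀ ε ∈ snd (w 0), fst (w 0) ∉ LAS ∅ ε) ?_ (Tm.prod (Tm.var 0) (Tm.var 1))
      refine (Dfb.mem (Tm.fst (Tm.var 0)) (Tm.LAS Tm.empty (Tm.snd (Tm.var 0)))).and ?_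
      exact Dfb.ball ktr_zfm (Tm.snd (Tm.var 0)) (R := fun _ u => fst (u 1) ∉ LAS ∅ (u 0))
        (Dfb.mem (Tm.fst (Tm.var 1)) (Tm.LAS Tm.empty (Tm.var 0))).not
    have mf := hR.1 _ kτ (cons (LL ix τ μ) (cons μ.toZFSet fun _ => ∅))
      (In.cons (In.cons (fun _ => kτ.mempty) ((G.ord μ).2 hμτ)) mLL)
    simp only [cons_zero, cons_succ] at mf
    set f := (ZFSet.prod (LL ix τ μ) μ.toZFSet).sep fun z =>
        fst z ∈ LAS ∅ (snd z) ∧ ∀ ε ∈ snd z, fst z ∉ LAS ∅ ε with hf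
    have inf : ∀ l y, ZFSet.pair l y ∈ f ↔ l ∈ LL ix τ μ ∧ ∃ δ < μ, y = δ.toZFSet ∧
        l ∈ LA ∅ δ ∧ ∀ ε < δ, l ∉ LA ∅ ε := by
      intro l y
      rw [hf, ZFSet.mem_sep, fst_pair, snd_pair, ZFSet.pair_mem_prod]
      constructor
      · rintro ⟨⟨h1, h2⟩, h3, h4⟩
        obtain ⟨δ, hδ, rfl⟩ := Ordinal.mem_toZFSet_iff.1 h2
        rw [LAS_ord] at h3
        refine ⟨h1, δ, hδ, rfl, h3, fun ε hε => ?_⟩
        have := h4 ε.toZFSet (Ordinal.toZFSet_mem_toZFSet_iff.2 hε)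
        rwa [LAS_ord] at this
      · rintro ⟨h1, δ, hδ, rfl, h3, h4⟩
        refine ⟨⟨h1, Ordinal.toZFSet_mem_toZFSet_iff.2 hδ⟩, by rwa [LAS_ord], ?_⟩
        intro ε hε
        obtain ⟨ε', hε', rfl⟩ := Ordinal.mem_toZFSet_iff.1 hε
        rw [LAS_ord]
        exact h4 ε' hε'
    have sv : Svl f := by
      intro l y z h1 h2
      obtain ⟨-, δ, hδ, rfl, h3, h4⟩ := (inf _ _).1 h1
      obtain ⟨-, δ', hδ', rfl, h3', h4'⟩ := (inf _ _).1 h2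
      rcases lt_trichotomy δ δ' with h | h | h
      · exact absurd h3 (h4' δ h)
      · rw [h]
      · exact absurd h3' (h4 δ' h)
    have dmf : dm f ⊆ LL ix τ μ := by
      intro l hl
      obtain ⟨y, hy⟩ := mem_dm.1 hl
      exact ((inf _ _).1 hy).1
    have cr : Ctbl (· ∈ LA ∅ τ) (rg f) := (AC _ kτ).2.2.2.2.2 _ f mf sv hC dmf
    obtain ⟨γ, hγ, hb⟩ := G.bμ (rg f) cr (by
      intro y hy
      obtain ⟨l, hl⟩ := mem_rg.1 hy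
      obtain ⟨-, δ, hδ, rfl, -⟩ := (inf _ _).1 hl
      exact Ordinal.toZFSet_mem_toZFSet_iff.2 hδ)
    have hall : ∀ l ∈ LL ix τ μ, l ∈ LA ∅ γ := by
      intro l hl
      have hex : ∃ δ : Ordinal.{0}, l ∈ LA ∅ δ := ⟨μ, sLL hl⟩
      obtain ⟨δ, hδμ, hδ'⟩ := (mem_Lh_limit G.limμ).1 (sLL hl)
      classical
      have hwf : WellFounded (fun a b : Ordinal.{0} => a < b) := wellFounded_lt
      set m := hwf.min {δ : Ordinal.{0} | l ∈ LA ∅ δ} hex with hm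
      have hm1 : l ∈ LA ∅ m := hwf.min_mem {δ : Ordinal.{0} | l ∈ LA ∅ δ} hex
      have hm2 : ∀ ε < m, l ∉ LA ∅ ε := fun ε hε h =>
        hwf.not_lt_min {δ : Ordinal.{0} | l ∈ LA ∅ δ} h hε
      have hmμ : m < μ := lt_of_le_of_lt (not_lt.1 fun h => hm2 δ h hδ') hδμ
      have h1 : m.toZFSet ∈ rg f := mem_rg.2 ⟨l, (inf _ _).2 ⟨hl, m, hmμ, rfl, hm1, hm2⟩⟩
      have h2 : m < γ := Ordinal.toZFSet_mem_toZFSet_iff.1 (hb h1)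
      exact LC2.mono h2.le hm1
    obtain ⟨η, hγη, hημ, hη⟩ := a1 γ hγ
    obtain ⟨l, hl, -, -, hl3, -⟩ := (a2 η hη).2.2
    exact hl3 (LC2.mono hγη.le (hall l ((memLL l).2 ⟨η, hη, hl⟩)))
  · intro γ hγ
    obtain ⟨η', h1, h2, h3⟩ := a1 γ hγ
    have h4 : LA ∅ η' ∈ LA ∅ μ := LC2.mem G.zμ ((G.ordμ η').2 h2)
    refine ⟨LA ∅ η', LC2.mono hμτ.le h4, G.cμ _ h4, fun l hl hZ => ?_⟩
    obtain ⟨η, hη, hl'⟩ := (memLL l).1 hl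
    refine ⟨η, ?_, hη, hl'⟩
    by_contra hc
    exact hZ (a3 η η' hη h3 (lt_of_le_of_lt (not_lt.1 hc) h1) l hl')

end SE
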