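import Pool.Agent.H9.SE.TarL

/-! # LE: the Luzin property -/

set_option linter.unusedVariables false

open Ordinal Order Set
open scoped ZFSet

namespace SE

open SF CAA

theorem pf_LE : T_AA → T_AF → T_LA5 → T_LC2 → T_LD → T_LD3 → T_LE := by
  intro AA AF LA5 LC2 LD LD3 ix hix τ μ κ G k E hE hD
  obtain ⟨-, aa2, -, aa4, aa5, -, -, aa8, -⟩ := AA
  obtain ⟨af1, -, -, -, af5, -⟩ := AF
  have sqhf : sq ⊆ hf := by
    intro b hb
    obtain ⟨n, hn⟩ := (af1 b).1 hb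
    exact (af5 n b hn).1
  obtain ⟨a1, a2, a3⟩ := LA5 ix hix τ μ κ G
  obtain ⟨-, -, -, c4⟩ := LC2 ix hix τ μ κ G
  -- `E` is a subset of `hf`
  have fin : ∀ n : ℕ, ((nS n : V) : Set V).Finite := by
    intro n
    have : ((nS n : V) : Set V) = (fun m : ℕ => nS m) '' {m | m < n} := by
      ext x
      constructor
      · intro hx
        obtain ⟨o, ho, rfl⟩ := Ordinal.mem_toZFSet_iff.1 hx
        obtain ⟨j, rfl⟩ := Ordinal.lt_omega0.1 (ho.trans (Ordinal.natCast_lt_omega0 _))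
        exact ⟨j, nS_mem_nS.1 hx, rfl⟩
      · rintro ⟨m, hm, rfl⟩
        exact nS_mem_nS.2 hm
    rw [this]
    exact (Set.finite_lt_nat n).image _
  have hEs : E ⊆ hf := by
    intro s hs
    have hf' := hD.f s hs
    refine aa5 s ?_ ?_
    · intro z hz
      obtain ⟨a, ha, b, hb, rfl⟩ := ZFSet.mem_prod.1 (hf'.1 hz)
      obtain ⟨o, ho, rfl⟩ := Ordinal.mem_toZFSet_iff.1 ha
      obtain ⟨j, rfl⟩ := Ordinal.lt_omega0.1 (ho.trans (Ordinal.natCast_lt_omega0 _))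
      exact aa4 _ (aa2 j) _ (sqhf hb)
    · refine ((fin k).image fun a => ZFSet.pair a (app s a)).subset ?_
      intro z hz
      obtain ⟨a, ha, b, hb, rfl⟩ := ZFSet.mem_prod.1 (hf'.1 hz)
      refine ⟨a, ha, ?_⟩
      show ZFSet.pair a (app s a) = ZFSet.pair a b
      rw [app_eq (svl_of_isFunc hf') hz]
  have hhf : hf ∈ LA ∅ μ := aa8.1 (· ∈ LA ∅ μ) G.zμ (fun _ => ∅) fun _ => G.zμ.mempty
  have hEμ : E ∈ LA ∅ μ := G.subμ hf hhf E hE hEs
  obtain ⟨ζ0, hζ0, hEζ0⟩ := (mem_Lh_limit G.limμ).1 hEμ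
  obtain ⟨ζ, h1, hζμ, hζ⟩ := a1 ζ0 hζ0
  have hEζ : E ∈ LA ∅ ζ := Lh_mono h1.le hEζ0
  obtain ⟨Z, hZ, hZc, hZ2⟩ := c4 ζ hζμ
  refine ⟨Z, hZ, hZc, fun d hd hne hnZ => ?_⟩
  -- the ordinals
  have hex : ∀ j : ℕ, ∃ η, j < k → ζ < η ∧ Ad (· ∈ LA ∅ τ) η ∧ Lz ix η (app d (nS j)) := by
    intro j
    by_cases hj : j < k
    · obtain ⟨η, hη⟩ := hZ2 (app d (nS j)) (app_mem hd (nS_mem_nS.2 hj)) (hnZ j hj)
      exact ⟨η, fun _ => hη⟩
    · exact ⟨0, fun h => absurd h hj⟩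
  choose η hη using hex
  have inj : ∀ i < k, ∀ j < k, η i = η j → i = j := by
    intro i hi j hj h
    by_contra hij
    apply hne i hi j hj hij
    obtain ⟨l, -, -, -, -, hu⟩ := (a2 (η i) (hη i hi).2.1).2.2
    rw [hu _ (hη i hi).2.2, hu (app d (nS j)) (by rw [h]; exact (hη j hj).2.2)]
  set σ : Equiv.Perm (Fin k) := Tuple.sort fun j : Fin k => η j with hσ
  have hmon : Monotone ((fun j : Fin k => η j) ∘ σ) := Tuple.monotone_sort _
  have hstr : StrictMono ((fun j : Fin k => η j) ∘ σ) := by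
    refine hmon.strictMono_of_injective ?_
    intro i j h
    have := inj _ (σ i).2 _ (σ j).2 h
    exact σ.injective (Fin.ext this)
  obtain ⟨E', hE', hD', hE2⟩ := LD3 (· ∈ LA ∅ ζ) hζ.z k E σ hEζ hD
  set s : ℕ → ℕ := fun j => if h : j < k then (σ ⟨j, h⟩ : ℕ) else j with hs
  have hsj : ∀ j (h : j < k), s j = (σ ⟨j, h⟩ : ℕ) := fun j h => by simp only [hs, dif_pos h]
  obtain ⟨t', ht', ht2⟩ := LD ix hix τ μ κ G k ζ E' (fun j => η (s j)) (fun j => app d (nS (s j)))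
    hζ.z hE' hD' (by
      intro j hj
      have hs' : s j < k := by rw [hsj j hj]; exact (σ ⟨j, hj⟩).2
      obtain ⟨b1, b2, b3⟩ := hη (s j) hs'
      exact ⟨b1.le, b2, b3⟩) (by
      intro i j hij hj
      have hi := hij.trans hj
      show η (s i) < η (s j)
      rw [hsj i hi, hsj j hj]
      exact hstr (a := ⟨i, hi⟩) (b := ⟨j, hj⟩) hij)
  obtain ⟨t, ht, ht3⟩ := hE2 t' ht'
  refine ⟨t, ht, fun i hi => ?_⟩
  set j : Fin k := σ.symm ⟨i, hi⟩ with hj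
  have hji : (σ j : ℕ) = i := by rw [hj, Equiv.apply_symm_apply]
  have e1 := ht3 j
  rw [hji] at e1
  have e2 := ht2 j j.2
  have e3 : s j = i := by rw [hsj j j.2]; exact hji
  rw [e3] at e2
  rw [e1]
  exact e2

end SE
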