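import Pool.Agent.H9.SE.Tar0
import Pool.Agent.H38.SE.TarA

/-!
# MP_eaeaf5_lc, part U: from codes with values in `hf` to codes in Baire space. Definitions, targets
-/

set_option linter.unusedVariables false

open Ordinal Order Set
open scoped ZFSet

namespace SE

open SF PSR

/-! ## Definitions -/

/-- `e` is a bijection of `ω` onto `hf` -/
structure IsE (e : V) : Prop where
  fn : ZFSet.IsFunc om hf e
  inj : ∀ m n : ℕ, app e (nS m) = app e (nS n) → m = n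
  onto : ∀ y ∈ hf, ∃ n : ℕ, app e (nS n) = y

/-- the real with values in `hf` which corresponds to `x` -/
noncomputable def hx (e : V) (x : ℕ → ℕ) : V := resS om fun n => app e (nS (x (nn n)))

/-- the tuple of five reals -/
def p5 (x y1 y2 y3 y4 : ℕ → ℕ) : ℕ → ℕ := pr (pr (pr (pr x y1) y2) y3) y4

/-- the tuple of five reals with values in `hf` -/
noncomputable def q5 (x y1 y2 y3 y4 : V) : V := prl (prl (prl (prl x y1) y2) y3) y4

/-- the length of the finite sequence with the code `k` -/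
def ln (k : ℕ) : ℕ := (Denumerable.ofNat (List ℕ) k).length

/-- the entry `i` of the finite sequence with the code `k` -/
def en (k i : ℕ) : ℕ := (Denumerable.ofNat (List ℕ) k).getD i 0

/-- the element of `hf` which corresponds to `k`, the code of a tuple of five numbers -/
noncomputable def ent (e : V) (k : ℕ) : V :=
  ZFSet.pair (ZFSet.pair (ZFSet.pair (ZFSet.pair
    (app e (nS k.unpair.1.unpair.1.unpair.1.unpair.1))
    (app e (nS k.unpair.1.unpair.1.unpair.1.unpair.2)))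
    (app e (nS k.unpair.1.unpair.1.unpair.2))) (app e (nS k.unpair.1.unpair.2)))
    (app e (nS k.unpair.2))

/-- the element of `sq` which corresponds to the finite sequence with the code `k` -/
noncomputable def JJ (e : V) (k : ℕ) : V := resS (nS (ln k)) fun i => ent e (en k (nn i))

/-- the number `z` as a tuple `(x, y1, y2, y3, y4)`, with `x` replaced by `((α, β), x)` -/
def tr (α β z : ℕ) : ℕ :=
  Nat.pair (Nat.pair (Nat.pair (Nat.pair
    (Nat.pair (Nat.pair α β) z.unpair.1.unpair.1.unpair.1.unpair.1)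
    z.unpair.1.unpair.1.unpair.1.unpair.2)
    z.unpair.1.unpair.1.unpair.2) z.unpair.1.unpair.2) z.unpair.2

/-! ## Primitive recursive functions in models of `ZFm` -/

/-- UA: arithmetic -/
def T_UA : Prop :=
  Tm ZFm (fun _ v => nS (nn (v 0))) ∧ Tm ZFm (fun _ v => nS (nn (v 0) + 1)) ∧
  Tm ZFm (fun _ v => nS (nn (v 0) + nn (v 1))) ∧
  Tm ZFm (fun _ v => nS (nn (v 0) * nn (v 1))) ∧
  Tm ZFm (fun _ v => nS (Nat.pair (nn (v 0)) (nn (v 1)))) ∧
  Tm ZFm (fun _ v => nS (nn (v 0)).unpair.1) ∧ Tm ZFm (fun _ v => nS (nn (v 0)).unpair.2) ∧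
  Dfb ZFm (fun _ v => nn (v 0) < nn (v 1)) ∧ Dfb ZFm (fun _ v => nn (v 0) = nn (v 1))

/-- UB: primitive recursive functions are uniformly definable -/
def T_UB : Prop := (∀ f : ℕ → ℕ, Primrec f → Tm ZFm (fun _ v => nS (f (nn (v 0))))) ∧
  ∀ f : ℕ → ℕ → ℕ, Primrec₂ f → Tm ZFm (fun _ v => nS (f (nn (v 0)) (nn (v 1))))

/-- UC: graphs of functions which are definable in models of `ZFm` -/
def T_UC : Prop :=
  (∀ (x : ℕ → ℕ) (n : ℕ), app (gr x) (nS n) = nS (x n)) ∧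
  (∀ (x : ℕ → ℕ) (z : V), z ∈ gr x ↔ ∃ n : ℕ, z = ZFSet.pair (nS n) (nS (x n))) ∧
  (∀ x y : ℕ → ℕ, gr x = gr y → x = y) ∧
  (∀ R : (V → Prop) → (ℕ → V) → Prop, Dfb ZFm R → ∀ M, ZFm M → ∀ v : ℕ → V, In M v →
    ∀ f : ℕ → ℕ, (∀ n k : ℕ, R M (cons (nS n) (cons (nS k) v)) ↔ f n = k) → M (gr f)) ∧
  ∀ F : (V → Prop) → (ℕ → V) → V, Tm ZFm F → ∀ M, ZFm M → ∀ v : ℕ → V, In M v →
    ∀ f : ℕ → ℕ, (∀ n : ℕ, F M (cons (nS n) v) = nS (f n)) → M (gr f)

/-- UD: computable functions are elements of all models of `ZFm` -/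
def T_UD : Prop := ∀ M, ZFm M → ∀ f : ℕ → ℕ, Computable f → M (gr f)

/-! ## The translation of reals and codes -/

/-- UE: there is a bijection of `ω` onto `hf` in all models of `ZFm` -/
def T_UE : Prop := ∀ M, ZFm M → ∃ e, M e ∧ IsE e

/-- UF: the translation of reals -/
def T_UF : Prop := ∀ e, IsE e →
  (∀ x, Rl (hx e x) ∧ ∀ n : ℕ, app (hx e x) (nS n) = app e (nS (x n))) ∧
  ∀ M, ZFm M → M e → (∀ x, M (gr x) → M (hx e x)) ∧
    ∀ y, M y → Rl y → ∃ x, M (gr x) ∧ hx e x = y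

/-- UG: the translation of finite sequences -/
def T_UG : Prop := ∀ e, IsE e → (∀ k, JJ e k ∈ hf) ∧ (∀ k k', JJ e k = JJ e k' → k = k') ∧
  (∀ k, JJ e k ≠ nS 1) ∧
  ∀ (x y1 y2 y3 y4 : ℕ → ℕ) (m : ℕ),
    rs (q5 (hx e x) (hx e y1) (hx e y2) (hx e y3) (hx e y4)) (nS m) =
      JJ e (Encodable.encode ((List.range m).map (p5 x y1 y2 y3 y4)))

/-- UH: the translation of finite sequences is uniformly definable -/
def T_UH : Prop := Tm ZFm (fun _ v => JJ (v 0) (nn (v 1)))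

/-- UI: the translation of codes, from Baire space to `hf` -/
def T_UI : Prop := ∀ M, ZFm M → ∀ e, M e → IsE e → ∀ a : ℕ → ℕ, M (gr a) →
  ∃ c, M c ∧ Rl c ∧ ∀ x y1 y2 y3 y4 : ℕ → ℕ,
    (Opn c (q5 (hx e x) (hx e y1) (hx e y2) (hx e y3) (hx e y4)) ↔ Op a (p5 x y1 y2 y3 y4))

/-- UJ: the translation of codes, from `hf` to Baire space -/
def T_UJ : Prop := ∀ M, ZFm M → ∀ e, M e → IsE e → ∀ c, M c → Rl c →
  ∃ a : ℕ → ℕ, M (gr a) ∧ ∀ x y1 y2 y3 y4 : ℕ → ℕ,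
    (Opn c (q5 (hx e x) (hx e y1) (hx e y2) (hx e y3) (hx e y4)) ↔ Op a (p5 x y1 y2 y3 y4))

/-- UK: the translation of `Σ¹₄` statements -/
def T_UK : Prop := ∀ M, ZFm M → ∀ e, M e → IsE e → ∀ (a : ℕ → ℕ) (c : V),
  (∀ x y1 y2 y3 y4 : ℕ → ℕ,
    (Opn c (q5 (hx e x) (hx e y1) (hx e y2) (hx e y3) (hx e y4)) ↔ Op a (p5 x y1 y2 y3 y4))) →
  ∀ x, M (gr x) → (S4 M c (hx e x) ↔ Sig4 M a x)

/-- UL: boldface separation and reduction -/
def T_UL : Prop := ∀ M, ZFm M →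
  (SepH M → Separation M) ∧ (NoRedH M → ¬ ReductionBold M)

/-! ## Universal codes -/

/-- UM: computable codes of universal open sets -/
def T_UM : Prop := ∃ u0 u1 : ℕ → ℕ, Computable u0 ∧ Computable u1 ∧
  ∀ a b x y1 y2 y3 y4 : ℕ → ℕ,
    (Op u0 (p5 (pr (pr a b) x) y1 y2 y3 y4) ↔ Op a (p5 x y1 y2 y3 y4)) ∧
    (Op u1 (p5 (pr (pr a b) x) y1 y2 y3 y4) ↔ Op b (p5 x y1 y2 y3 y4))

/-- UN: sections of open sets, pairs -/
def T_UN : Prop := ∀ M, ZFm M → ∀ a b c : ℕ → ℕ, M (gr a) → M (gr b) → M (gr c) →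
  M (gr (pr a b)) ∧ ∃ c' : ℕ → ℕ, M (gr c') ∧ ∀ x y1 y2 y3 y4 : ℕ → ℕ,
    (Op c' (p5 x y1 y2 y3 y4) ↔ Op c (p5 (pr (pr a b) x) y1 y2 y3 y4))

/-- UO: lightface and boldface reduction -/
def T_UO : Prop := ∀ M, ZFm M → ReductionLight M → ReductionBold M

end SE
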