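import Pool.Agent.H1.SE.TarU

/-! # UA: arithmetic is uniformly definable in models of `ZFm` -/

set_option linter.unusedVariables false

open Ordinal Order Set
open scoped ZFSet

namespace SE

open SF PSR

variable {f g : (V → Prop) → (ℕ → V) → V}

theorem UA.nn : Tm ZFm (fun _ v => nS (nn (v 0))) := by
  refine (Tm.sel (R := fun _ v => v 0 ∈ om) (Dfb.mem (Tm.var 0) Tm.om) (Tm.var 0)
    Tm.empty).congr fun M k v hv => ?_
  by_cases h : v 0 ∈ om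
  · rw [sel_pos h]
    obtain ⟨n, hn⟩ := mem_om.1 h
    rw [hn, nn_nS]
  · rw [sel_neg h, nn_of_not h, nS_zero]

theorem UA.succ : Tm ZFm (fun _ v => nS (SF.nn (v 0) + 1)) :=
  (Tm.ins UA.nn UA.nn).congr fun M k v hv => (nS_succ _).symm

theorem UA.add : Tm ZFm (fun _ v => nS (SF.nn (v 0) + SF.nn (v 1))) := by
  refine (Tm.it (f := fun _ u => insert (u 0) (u 0)) (g := fun _ v => nS (SF.nn (v 0)))
    (h := fun _ v => v 1) (Tm.ins (Tm.var 0) (Tm.var 0)) UA.nn (Tm.var 1)).congr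
    fun M k v hv => ?_
  generalize SF.nn (v 1) = n
  induction n with
  | zero => rfl
  | succ n ih =>
    show insert _ _ = _
    simp only [cons_zero]
    rw [ih, ← nS_succ]
    rfl

theorem UA.mul : Tm ZFm (fun _ v => nS (SF.nn (v 0) * SF.nn (v 1))) := by
  refine (Tm.it (f := fun _ u => nS (SF.nn (u 0) + SF.nn (u 1))) (g := fun _ v => ∅)
    (h := fun _ v => v 1) UA.add Tm.empty (Tm.var 1)).congr fun M k v hv => ?_
  generalize SF.nn (v 1) = n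
  induction n with
  | zero => rw [Nat.mul_zero, nS_zero]; rfl
  | succ n ih =>
    show nS (SF.nn (it _ _ M v n) + SF.nn (v 0)) = _
    rw [ih, nn_nS]
    rfl

theorem UA.lt : Dfb ZFm (fun _ v => SF.nn (v 0) < SF.nn (v 1)) :=
  (Dfb.mem (UA.nn.rn id) (Tm.at1 (F := fun _ x => nS (SF.nn x)) UA.nn (Tm.var 1))).congr
    fun M k v hv => nS_mem_nS

theorem UA.eq : Dfb ZFm (fun _ v => SF.nn (v 0) = SF.nn (v 1)) :=
  (Dfb.eq (UA.nn.rn id) (Tm.at1 (F := fun _ x => nS (SF.nn x)) UA.nn (Tm.var 1))).congr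
    fun M k v hv => nS_inj

theorem UA.addt (hf : Tm ZFm f) (hg : Tm ZFm g) :
    Tm ZFm (fun M v => nS (SF.nn (f M v) + SF.nn (g M v))) :=
  Tm.at2 (F := fun _ x y => nS (SF.nn x + SF.nn y)) UA.add hf hg

theorem UA.mult (hf : Tm ZFm f) (hg : Tm ZFm g) :
    Tm ZFm (fun M v => nS (SF.nn (f M v) * SF.nn (g M v))) :=
  Tm.at2 (F := fun _ x y => nS (SF.nn x * SF.nn y)) UA.mul hf hg

theorem UA.pair : Tm ZFm (fun _ v => nS (Nat.pair (SF.nn (v 0)) (SF.nn (v 1)))) := by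
  refine (Tm.sel (R := fun _ v => SF.nn (v 0) < SF.nn (v 1)) UA.lt
    (UA.addt (UA.mult (Tm.var 1) (Tm.var 1)) (Tm.var 0))
    (UA.addt (UA.addt (UA.mult (Tm.var 0) (Tm.var 0)) (Tm.var 0)) (Tm.var 1))).congr
    fun M k v hv => ?_
  simp only [nn_nS]
  unfold Nat.pair
  by_cases h : SF.nn (v 0) < SF.nn (v 1)
  · rw [sel_pos h, if_pos h]
  · rw [sel_neg h, if_neg h]

theorem UA.mnS {M : V → Prop} (hM : ZFm M) (n : ℕ) : M (nS n) :=
  (Tm.nS n).1 M hM (fun _ => ∅) fun _ => hM.mempty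

theorem UA.pr1 : Tm ZFm (fun _ v => nS (SF.nn (v 0)).unpair.1) := by
  refine Tm.of_graph (R := fun _ v => v 0 ∈ om ∧
    ∃ b ∈ om, nS (Nat.pair (SF.nn (v 0)) (SF.nn b)) = nS (SF.nn (v 1)))
    (fun M k v hv => UA.mnS k _) ?_ ?_
  · refine (Dfb.mem (Tm.var 0) Tm.om).and ?_
    exact Dfb.bex ktr_zfm Tm.om (R := fun _ u => nS (Nat.pair (SF.nn (u 1)) (SF.nn (u 0))) =
      nS (SF.nn (u 2))) (Dfb.eq
        (Tm.at2 (F := fun _ x y => nS (Nat.pair (SF.nn x) (SF.nn y))) UA.pair (Tm.var 1)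
          (Tm.var 0)) (Tm.at1 (F := fun _ x => nS (SF.nn x)) UA.nn (Tm.var 2)))
  · intro M k v hv x hx
    simp only [cons_zero, cons_succ]
    constructor
    · rintro ⟨h1, b, hb, h2⟩
      obtain ⟨n, rfl⟩ := mem_om.1 h1
      obtain ⟨m, rfl⟩ := mem_om.1 hb
      rw [nn_nS, nn_nS, nS_inj] at h2
      rw [← h2, Nat.unpair_pair]
    · rintro rfl
      refine ⟨nS_mem_om _, nS (SF.nn (v 0)).unpair.2, nS_mem_om _, ?_⟩
      rw [nn_nS, nn_nS, Nat.pair_unpair]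

theorem UA.pr2 : Tm ZFm (fun _ v => nS (SF.nn (v 0)).unpair.2) := by
  refine Tm.of_graph (R := fun _ v => v 0 ∈ om ∧
    ∃ b ∈ om, nS (Nat.pair (SF.nn b) (SF.nn (v 0))) = nS (SF.nn (v 1)))
    (fun M k v hv => UA.mnS k _) ?_ ?_
  · refine (Dfb.mem (Tm.var 0) Tm.om).and ?_
    exact Dfb.bex ktr_zfm Tm.om (R := fun _ u => nS (Nat.pair (SF.nn (u 0)) (SF.nn (u 1))) =
      nS (SF.nn (u 2))) (Dfb.eq
        (Tm.at2 (F := fun _ x y => nS (Nat.pair (SF.nn x) (SF.nn y))) UA.pair (Tm.var 0)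
          (Tm.var 1)) (Tm.at1 (F := fun _ x => nS (SF.nn x)) UA.nn (Tm.var 2)))
  · intro M k v hv x hx
    simp only [cons_zero, cons_succ]
    constructor
    · rintro ⟨h1, b, hb, h2⟩
      obtain ⟨n, rfl⟩ := mem_om.1 h1
      obtain ⟨m, rfl⟩ := mem_om.1 hb
      rw [nn_nS, nn_nS, nS_inj] at h2
      rw [← h2, Nat.unpair_pair]
    · rintro rfl
      refine ⟨nS_mem_om _, nS (SF.nn (v 0)).unpair.1, nS_mem_om _, ?_⟩
      rw [nn_nS, nn_nS, Nat.pair_unpair]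

theorem pf_UA : T_UA := ⟨UA.nn, UA.succ, UA.add, UA.mul, UA.pair, UA.pr1, UA.pr2, UA.lt, UA.eq⟩

end SE
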