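import Pool.Agent.H1.SE.TarU

/-! # UB: primitive recursive functions are uniformly definable in models of `ZFm` -/

set_option linter.unusedVariables false

open Ordinal Order Set
open scoped ZFSet

namespace SE

open SF PSR

variable {f g : (V → Prop) → (ℕ → V) → V}

theorem UB.prim (UA : T_UA) (f : ℕ → ℕ) (hf : Nat.Primrec f) :
    Tm ZFm (fun _ v => nS (f (nn (v 0)))) := by
  obtain ⟨ua0, uas, -, -, uap, ual, uar, -⟩ := UA
  induction hf with
  | zero => exact Tm.nS 0
  | succ => exact uas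
  | left => exact ual
  | right => exact uar
  | @pair f g _ _ ih1 ih2 =>
    refine (Tm.at2 (F := fun _ x y => nS (Nat.pair (nn x) (nn y))) uap ih1 ih2).congr
      fun M k v hv => ?_
    simp only [nn_nS]
  | @comp f g _ _ ih1 ih2 =>
    refine (Tm.at1 (F := fun _ x => nS (f (nn x))) ih1 ih2).congr fun M k v hv => ?_
    simp only [nn_nS]
  | @prec f g _ _ ih1 ih2 =>
    have st : Tm ZFm (fun _ u => ZFSet.pair (nS (nn (fst (u 0)) + 1))
        (nS (g (Nat.pair (nn (u 1)).unpair.1 (Nat.pair (nn (fst (u 0))) (nn (snd (u 0)))))))) := by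
      refine Tm.pair (Tm.at1 (F := fun _ x => nS (nn x + 1)) uas (Tm.fst (Tm.var 0))) ?_
      refine (Tm.at1 (F := fun _ x => nS (g (nn x))) ih2
        (Tm.at2 (F := fun _ x y => nS (Nat.pair (nn x) (nn y))) uap
          (Tm.at1 (F := fun _ x => nS (nn x).unpair.1) ual (Tm.var 1))
          (Tm.at2 (F := fun _ x y => nS (Nat.pair (nn x) (nn y))) uap (Tm.fst (Tm.var 0))
            (Tm.snd (Tm.var 0))))).congr fun M k v hv => ?_
      simp only [nn_nS]
    have s0 : Tm ZFm (fun _ v => ZFSet.pair (nS 0) (nS (f (nn (v 0)).unpair.1))) := by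
      refine Tm.pair (Tm.nS 0) ?_
      refine (Tm.at1 (F := fun _ x => nS (f (nn x))) ih1 ual).congr fun M k v hv => ?_
      simp only [nn_nS]
    refine (Tm.snd (Tm.it st s0 uar)).congr fun M k v hv => ?_
    rw [nn_nS]
    show _ = nS (Nat.rec (f (nn (v 0)).unpair.1) (fun y IH => g (Nat.pair (nn (v 0)).unpair.1
      (Nat.pair y IH))) (nn (v 0)).unpair.2)
    generalize (nn (v 0)).unpair.2 = n
    have key : it (fun _ u => ZFSet.pair (nS (nn (fst (u 0)) + 1))
        (nS (g (Nat.pair (nn (u 1)).unpair.1 (Nat.pair (nn (fst (u 0))) (nn (snd (u 0))))))))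
        (fun _ v => ZFSet.pair (nS 0) (nS (f (nn (v 0)).unpair.1))) M v n =
        ZFSet.pair (nS n) (nS (Nat.rec (f (nn (v 0)).unpair.1)
          (fun y IH => g (Nat.pair (nn (v 0)).unpair.1 (Nat.pair y IH))) n)) := by
      induction n with
      | zero => rfl
      | succ n ih =>
        unfold it
        simp only [cons_zero, cons_succ]
        rw [ih, fst_pair, snd_pair, nn_nS, nn_nS]
    rw [key, snd_pair]

theorem pf_UB : T_UA → T_UB := by
  intro UA
  refine ⟨fun f hf => UB.prim UA f (Primrec.nat_iff.1 hf), fun f hf => ?_⟩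
  have h := UB.prim UA _ (Primrec₂.unpaired'.2 hf)
  obtain ⟨-, -, -, -, uap, -⟩ := UA
  refine (Tm.at1 (F := fun _ x => nS (Nat.unpaired f (nn x))) h uap).congr fun M k v hv => ?_
  simp only [nn_nS, Nat.unpaired, Nat.unpair_pair]

end SE
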