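import Pool.Agent.H1.SE.TarU

/-! # UC: graphs of reals -/

set_option linter.unusedVariables false

open Ordinal Order Set
open scoped ZFSet

namespace SE

open SF PSR

theorem pf_UC : T_UC := by
  have m1 : ∀ (x : ℕ → ℕ) (z : V), z ∈ gr x ↔ ∃ n : ℕ, z = ZFSet.pair (nS n) (nS (x n)) := by
    intro x z
    unfold gr
    rw [ZFSet.mem_range]
    exact exists_congr fun n => eq_comm
  have sv : ∀ x : ℕ → ℕ, Svl (gr x) := by
    intro x a b c h1 h2
    obtain ⟨n, hn⟩ := (m1 x _).1 h1
    obtain ⟨m, hm⟩ := (m1 x _).1 h2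
    obtain ⟨e1, e2⟩ := ZFSet.pair_injective hn
    obtain ⟨e3, e4⟩ := ZFSet.pair_injective hm
    have : n = m := nS_inj.1 (e1.symm.trans e3)
    rw [e2, e4, this]
  have ap : ∀ (x : ℕ → ℕ) (n : ℕ), app (gr x) (nS n) = nS (x n) :=
    fun x n => app_eq (sv x) ((m1 x _).2 ⟨n, rfl⟩)
  have rl : ∀ R : (V → Prop) → (ℕ → V) → Prop, Dfb ZFm R → ∀ M, ZFm M → ∀ v : ℕ → V, In M v →
      ∀ f : ℕ → ℕ, (∀ n k : ℕ, R M (cons (nS n) (cons (nS k) v)) ↔ f n = k) → M (gr f) := by
    intro R hR M hM v hv f h
    have h1 : Tm ZFm (fun M v => (ZFSet.prod om om).sep fun z =>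
        R M (fun i => match i with | 0 => fst z | 1 => snd z | i + 2 => v i)) := by
      refine (Tm.sep (R := fun M w => R M (fun i => match i with
          | 0 => fst (w 0) | 1 => snd (w 0) | i + 2 => w (i + 1))) ?_ (Tm.prod Tm.om Tm.om)).congr
        fun M k v hv => rfl
      refine (hR.comp (fun i => match i with
          | 0 => fun _ w => fst (w 0) | 1 => fun _ w => snd (w 0) | i + 2 => fun _ w => w (i + 1))
        ?_).congr ?_
      · intro i
        match i with
        | 0 => exact Tm.fst (Tm.var 0)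
        | 1 => exact Tm.snd (Tm.var 0)
        | i + 2 => exact Tm.var (i + 1)
      · intro M k w hw
        have : (fun i => (match i with
          | 0 => fun _ w => fst (w 0) | 1 => fun _ w => snd (w 0) | i + 2 => fun _ w => w (i + 1) :
            (V → Prop) → (ℕ → V) → V) M w) = (fun i => match i with
          | 0 => fst (w 0) | 1 => snd (w 0) | i + 2 => w (i + 1)) := by
          funext i
          match i with
          | 0 => rfl
          | 1 => rfl
          | i + 2 => rfl
        rw [this]
    have h2 := h1.1 M hM v hv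
    have h3 : gr f = (ZFSet.prod om om).sep fun z =>
        R M (fun i => match i with | 0 => fst z | 1 => snd z | i + 2 => v i) := by
      have hc : ∀ n k : ℕ, (fun i => match i with
          | 0 => fst (ZFSet.pair (nS n) (nS k)) | 1 => snd (ZFSet.pair (nS n) (nS k))
          | i + 2 => v i) = cons (nS n) (cons (nS k) v) := by
        intro n k
        funext i
        match i with
        | 0 => exact fst_pair _ _
        | 1 => exact snd_pair _ _
        | i + 2 => rfl
      ext z
      rw [m1, ZFSet.mem_sep, ZFSet.mem_prod]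
      constructor
      · rintro ⟨n, rfl⟩
        refine ⟨⟨_, nS_mem_om n, _, nS_mem_om (f n), rfl⟩, ?_⟩
        rw [hc, h]
      · rintro ⟨⟨a, ha, b, hb, rfl⟩, hz⟩
        obtain ⟨n, rfl⟩ := mem_om.1 ha
        obtain ⟨k, rfl⟩ := mem_om.1 hb
        rw [hc, h] at hz
        exact ⟨n, by rw [hz]⟩
    rw [h3]
    exact h2
  refine ⟨ap, m1, ?_, rl, ?_⟩
  · intro x y h
    funext n
    have := ap x n
    rw [h, ap y n] at this
    exact (nS_inj.1 this).symm
  · intro F hF M hM v hv f h
    refine rl (fun M w => w 1 = F M (fun i => w (match i with | 0 => 0 | i + 1 => i + 2)))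
      (Dfb.eq (Tm.var 1) (hF.rn _)) M hM v hv f ?_
    intro n k
    have e : (fun i => cons (nS n) (cons (nS k) v) (match i with | 0 => 0 | i + 1 => i + 2)) =
        cons (nS n) v := by
      funext i; cases i <;> rfl
    show nS k = F M _ ↔ _
    rw [e, h n, nS_inj]
    exact eq_comm

end SE
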