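import Pool.Agent.H1.SE.TarU

/-! # UD: computable functions are elements of all models of `ZFm` -/

set_option linter.unusedVariables false

open Ordinal Order Set
open scoped ZFSet

namespace SE

open SF PSR

theorem pf_UD : T_UA → T_UB → T_UC → T_UD := by
  intro UA UB UC M hM f hf
  obtain ⟨ub1, -⟩ := UB
  obtain ⟨-, -, -, ucR, -⟩ := UC
  obtain ⟨-, -, -, -, uap, -⟩ := UA
  have h0 : Nat.Partrec (fun n => Part.some (f n)) := Partrec.nat_iff.1 hf
  obtain ⟨c, hc⟩ := Nat.Partrec.Code.exists_code.1 h0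
  set h : ℕ → ℕ := fun t => if Nat.Partrec.Code.evaln t.unpair.1 c t.unpair.2.unpair.1 =
    some t.unpair.2.unpair.2 then 1 else 0 with hh
  have f1 : Primrec fun k : ℕ => k.unpair.1 := Primrec.fst.comp Primrec.unpair
  have f2 : Primrec fun k : ℕ => k.unpair.2 := Primrec.snd.comp Primrec.unpair
  have hp : Primrec h := by
    refine Primrec.ite ?_ (Primrec.const 1) (Primrec.const 0)
    refine Primrec.eq.comp ?_ (Primrec.option_some.comp (f2.comp f2))
    exact Nat.Partrec.Code.primrec_evaln.comp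
      (Primrec.pair (Primrec.pair f1 (Primrec.const c)) (f1.comp f2))
  have key : ∀ n m : ℕ, f n = m ↔ ∃ k : ℕ, h (Nat.pair k (Nat.pair n m)) = 1 := by
    intro n m
    have h1 : m ∈ c.eval n ↔ f n = m := by
      rw [hc]
      simp [Part.mem_some_iff, eq_comm]
    rw [← h1, Nat.Partrec.Code.evaln_complete]
    refine exists_congr fun k => ?_
    simp only [hh, Nat.unpair_pair]
    by_cases hk : Nat.Partrec.Code.evaln k c n = some m
    · rw [if_pos hk]
      exact ⟨fun _ => rfl, fun _ => hk⟩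
    · rw [if_neg hk]
      exact ⟨fun h => absurd h hk, fun h => absurd h (by norm_num)⟩
  refine ucR (fun _ w => ∃ k ∈ om, nS (h (Nat.pair (nn k) (Nat.pair (nn (w 0)) (nn (w 1))))) = nS 1)
    ?_ M hM (fun _ => ∅) (fun _ => hM.mempty) f ?_
  · refine Dfb.bex ktr_zfm Tm.om
      (R := fun _ u => nS (h (Nat.pair (nn (u 0)) (Nat.pair (nn (u 1)) (nn (u 2))))) = nS 1) ?_
    refine Dfb.eq ((Tm.at1 (F := fun _ x => nS (h (nn x))) (ub1 h hp)
      (Tm.at2 (F := fun _ x y => nS (Nat.pair (nn x) (nn y))) uap (Tm.var 0)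
        (Tm.at2 (F := fun _ x y => nS (Nat.pair (nn x) (nn y))) uap (Tm.var 1) (Tm.var 2)))).congr
      fun M k v hv => ?_) (Tm.nS 1)
    simp only [nn_nS]
  · intro n m
    simp only [cons_zero, cons_succ, nn_nS]
    rw [key]
    constructor
    · rintro ⟨k, hk, h⟩
      exact ⟨nn k, nS_inj.1 h⟩
    · rintro ⟨k, hk⟩
      refine ⟨nS k, nS_mem_om k, ?_⟩
      rw [nn_nS, hk]

end SE
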