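import Pool.Agent.H1.SE.TarU

/-! # UF: translation of reals -/

set_option linter.unusedVariables false

open Ordinal Order Set
open scoped ZFSet

namespace SE

open SF PSR

theorem pf_UF : T_AG → T_UC → T_UF := by
  intro AG UC e hE
  obtain ⟨ag1, -, agx, -, -, agF⟩ := AG
  obtain ⟨uc1, -, -, ucR, -⟩ := UC
  have hF : ∀ (x : ℕ → ℕ) (n : ℕ), app e (nS (x (nn (nS n)))) ∈ hf :=
    fun x n => app_mem hE.fn (nS_mem_om _)
  have hR : ∀ x, Rl (hx e x) ∧ ∀ n : ℕ, app (hx e x) (nS n) = app e (nS (x n)) := by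
    intro x
    obtain ⟨h1, h2⟩ := agF (fun n => app e (nS (x (nn n)))) (hF x)
    refine ⟨h1, fun n => ?_⟩
    have := h2 n
    rw [nn_nS] at this
    exact this
  refine ⟨hR, fun M hM he => ⟨fun x hx' => ?_, fun y hy ry => ?_⟩⟩
  · have h1 : Tm ZFm (fun _ v => resS om fun z => app (v 0) (app (v 1) z)) :=
      Tm.resS (g := fun _ u => app (u 1) (app (u 2) (u 0))) Tm.om
        (Tm.app (Tm.var 1) (Tm.app (Tm.var 2) (Tm.var 0)))
    have h2 := h1.1 M hM (cons e (cons (gr x) fun _ => ∅))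
      ((In.cons (In.cons (fun _ => hM.mempty) hx') he))
    have h3 : hx e x = resS om fun z => app e (app (gr x) z) := by
      unfold hx
      refine resS_congr fun z hz => ?_
      obtain ⟨n, rfl⟩ := mem_om.1 hz
      rw [uc1, nn_nS]
    rw [h3]
    exact h2
  · choose x hx' using fun n : ℕ => hE.onto (app y (nS n)) ((ag1 y ry).2.2.1 n).1
    refine ⟨x, ?_, ?_⟩
    · refine ucR (fun _ w => app (w 2) (w 1) = app (w 3) (w 0))
        (Dfb.eq (Tm.app (Tm.var 2) (Tm.var 1)) (Tm.app (Tm.var 3) (Tm.var 0))) M hM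
        (cons e (cons y fun _ => ∅)) (In.cons (In.cons (fun _ => hM.mempty) hy) he) x ?_
      intro n k
      show app e (nS k) = app y (nS n) ↔ x n = k
      rw [← hx' n]
      exact ⟨fun h => (hE.inj _ _ h).symm, fun h => by rw [h]⟩
    · refine agx _ _ (hR x).1 ry fun n => ?_
      rw [(hR x).2, hx']

end SE
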