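import Pool.Agent.H1.SE.TarU

/-! # UH: the translation of finite sequences is uniformly definable -/

set_option linter.unusedVariables false

open Ordinal Order Set
open scoped ZFSet

namespace SE

open SF PSR

theorem UH.ln : Primrec ln := Primrec.list_length.comp (Primrec.ofNat (List ℕ))

theorem UH.en : Primrec₂ en :=
  (Primrec.list_getD 0).comp₂ ((Primrec.ofNat (List ℕ)).comp₂ Primrec₂.left) Primrec₂.right

theorem pf_UH : T_UA → T_UB → T_UH := by
  intro UA UB
  obtain ⟨ub1, ub2⟩ := UB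
  have c : ∀ h : ℕ → ℕ, Primrec h → Tm ZFm (fun _ u => app (u 1) (nS (h (SE.en (nn (u 2)) (nn (u 0)))))) := by
    intro h hh
    refine Tm.app (Tm.var 1) ?_
    refine (Tm.at1 (F := fun _ x => nS (h (nn x))) (ub1 h hh)
      (Tm.at2 (F := fun _ x y => nS (SE.en (nn x) (nn y))) (ub2 SE.en UH.en) (Tm.var 2)
        (Tm.var 0))).congr fun M k v hv => ?_
    simp only [nn_nS]
  have f1 : Primrec fun k : ℕ => k.unpair.1 := Primrec.fst.comp Primrec.unpair
  have f2 : Primrec fun k : ℕ => k.unpair.2 := Primrec.snd.comp Primrec.unpair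
  have g1 : Primrec fun k : ℕ => k.unpair.1.unpair.1 := f1.comp f1
  have g2 : Primrec fun k : ℕ => k.unpair.1.unpair.2 := f2.comp f1
  have h1 : Primrec fun k : ℕ => k.unpair.1.unpair.1.unpair.1 := f1.comp g1
  have h2 : Primrec fun k : ℕ => k.unpair.1.unpair.1.unpair.2 := f2.comp g1
  have i1 : Primrec fun k : ℕ => k.unpair.1.unpair.1.unpair.1.unpair.1 := f1.comp h1
  have i2 : Primrec fun k : ℕ => k.unpair.1.unpair.1.unpair.1.unpair.2 := f2.comp h1
  refine (Tm.resS (f := fun _ v => nS (SE.ln (nn (v 1))))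
    (g := fun _ u => ent (u 1) (SE.en (nn (u 2)) (nn (u 0)))) ?_ ?_).congr fun M k v hv => rfl
  · exact Tm.at1 (F := fun _ x => nS (SE.ln (nn x))) (ub1 _ UH.ln) (Tm.var 1)
  · have t := Tm.pair (Tm.pair (Tm.pair (Tm.pair (c _ i1) (c _ i2)) (c _ h2)) (c _ g2)) (c _ f2)
    refine t.congr fun M k v hv => ?_
    unfold ent
    generalize SE.en (nn (v 2)) (nn (v 0)) = q
    rfl

end SE
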