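import Pool.Agent.H1.SE.TarU

/-! # UI: translation of codes, from Baire space to `hf` -/

set_option linter.unusedVariables false

open Ordinal Order Set
open scoped ZFSet

namespace SE

open SF PSR

theorem pf_UI : T_AA → T_AG → T_UC → T_UG → T_UH → T_UI := by
  intro AA AG UC UG UH M hM e he hE a ha
  obtain ⟨-, aa2, -⟩ := AA
  obtain ⟨-, -, -, -, -, agF⟩ := AG
  obtain ⟨uc1, -⟩ := UC
  obtain ⟨ug1, ug2, ug3, ug4⟩ := UG e hE
  set F : V → V := fun z => sel (app (gr a) z = nS 0) (JJ e (nn z)) (nS 1) with hFd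
  have hF0 : ∀ n : ℕ, a n = 0 → F (nS n) = JJ e n := by
    intro n hn
    simp only [hFd]
    rw [sel_pos (by rw [uc1, hn]), nn_nS]
  have hF1 : ∀ n : ℕ, a n ≠ 0 → F (nS n) = nS 1 := by
    intro n hn
    simp only [hFd]
    rw [sel_neg]
    rw [uc1]
    exact fun h => hn (nS_inj.1 h)
  have hF : ∀ n : ℕ, F (nS n) ∈ hf := by
    intro n
    by_cases h : a n = 0
    · rw [hF0 n h]; exact ug1 n
    · rw [hF1 n h]; exact aa2 1
  obtain ⟨hr, hv⟩ := agF F hF
  refine ⟨resS om F, ?_, hr, fun x y1 y2 y3 y4 => ?_⟩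
  · have h1 : Tm ZFm (fun _ v => resS om fun z => sel (app (v 0) z = nS 0) (JJ (v 1) (nn z)) (nS 1)) := by
      refine Tm.resS (g := fun _ u => sel (app (u 1) (u 0) = nS 0) (JJ (u 2) (nn (u 0))) (nS 1)) Tm.om ?_
      exact Tm.sel (Dfb.eq (Tm.app (Tm.var 1) (Tm.var 0)) (Tm.nS 0))
        (Tm.at2 (F := fun _ p q => JJ p (nn q)) UH (Tm.var 2) (Tm.var 0)) (Tm.nS 1)
    exact h1.1 M hM (cons (gr a) (cons e fun _ => ∅))
      (In.cons (In.cons (fun _ => hM.mempty) he) ha)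
  · unfold Opn Op
    constructor
    · rintro ⟨n', hn', m', hm', h⟩
      obtain ⟨n, rfl⟩ := mem_om.1 hn'
      obtain ⟨m, rfl⟩ := mem_om.1 hm'
      rw [hv n, ug4] at h
      by_cases h0 : a n = 0
      · rw [hF0 n h0] at h
        have := ug2 _ _ h
        exact ⟨m, by rw [← this]; exact h0⟩
      · rw [hF1 n h0] at h
        exact absurd h.symm (ug3 _)
    · rintro ⟨m, h⟩
      refine ⟨_, nS_mem_om (Encodable.encode ((List.range m).map (p5 x y1 y2 y3 y4))), _,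
        nS_mem_om m, ?_⟩
      rw [hv, ug4, hF0 _ h]

end SE
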