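import Pool.Agent.H1.SE.TarU

/-! # UJ: translation of codes, from `hf` to Baire space -/

set_option linter.unusedVariables false

open Ordinal Order Set
open scoped ZFSet

namespace SE

open SF PSR

theorem pf_UJ : T_UC → T_UG → T_UH → T_UJ := by
  classical
  intro UC UG UH M hM e he hE c hc rc
  obtain ⟨-, -, -, -, ucF⟩ := UC
  obtain ⟨ug1, ug2, ug3, ug4⟩ := UG e hE
  refine ⟨fun k => if ∃ n ∈ om, app c n = JJ e k then 0 else 1, ?_, fun x y1 y2 y3 y4 => ?_⟩
  · refine ucF (fun _ w => sel (∃ n ∈ om, app (w 1) n = JJ (w 2) (nn (w 0))) (nS 0) (nS 1)) ?_ M hM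
      (cons c (cons e fun _ => ∅)) (In.cons (In.cons (fun _ => hM.mempty) he) hc) _ ?_
    · refine Tm.sel ?_ (Tm.nS 0) (Tm.nS 1)
      exact Dfb.bex ktr_zfm Tm.om (R := fun _ u => app (u 2) (u 0) = JJ (u 3) (nn (u 1)))
        (Dfb.eq (Tm.app (Tm.var 2) (Tm.var 0))
          (Tm.at2 (F := fun _ p q => JJ p (nn q)) UH (Tm.var 3) (Tm.var 1)))
    · intro n
      show sel (∃ m ∈ om, app c m = JJ e (nn (nS n))) (nS 0) (nS 1) = _
      rw [nn_nS]
      by_cases h : ∃ m ∈ om, app c m = JJ e n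
      · rw [sel_pos h]
        simp only [if_pos h]
      · rw [sel_neg h]
        simp only [if_neg h]
  · unfold Opn Op
    constructor
    · rintro ⟨n', hn', m', hm', h⟩
      obtain ⟨m, rfl⟩ := mem_om.1 hm'
      rw [ug4] at h
      exact ⟨m, if_pos ⟨n', hn', h⟩⟩
    · rintro ⟨m, h⟩
      have h' : ∃ n ∈ om, app c n = JJ e (Encodable.encode ((List.range m).map (p5 x y1 y2 y3 y4))) := by
        by_contra hcon
        exact one_ne_zero ((if_neg hcon).symm.trans h)
      obtain ⟨n, hn, h2⟩ := h'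
      exact ⟨n, hn, _, nS_mem_om m, by rw [ug4]; exact h2⟩

end SE
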