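import Pool.Agent.H1.SE.TarU

/-! # UK: translation of `Σ¹₄` statements -/

set_option linter.unusedVariables false

open Ordinal Order Set
open scoped ZFSet

namespace SE

open SF PSR

theorem pf_UK : T_UF → T_UK := by
  intro UF M hM e he hE a c h x hx'
  obtain ⟨hR, hF⟩ := UF e hE
  obtain ⟨hF1, hF2⟩ := hF M hM he
  have ex : ∀ Q : V → Prop, (∃ y, M y ∧ Rl y ∧ Q y) ↔ ∃ y : ℕ → ℕ, M (gr y) ∧ Q (hx e y) := by
    intro Q
    constructor
    · rintro ⟨y, hy, ry, hQ⟩
      obtain ⟨z, hz, rfl⟩ := hF2 y hy ry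
      exact ⟨z, hz, hQ⟩
    · rintro ⟨z, hz, hQ⟩
      exact ⟨_, hF1 z hz, (hR z).1, hQ⟩
  have al : ∀ Q : V → Prop, (∀ y, M y → Rl y → Q y) ↔ ∀ y : ℕ → ℕ, M (gr y) → Q (hx e y) := by
    intro Q
    constructor
    · intro h z hz
      exact h _ (hF1 z hz) (hR z).1
    · intro h y hy ry
      obtain ⟨z, hz, rfl⟩ := hF2 y hy ry
      exact h z hz
  unfold S4 P3 Sig4
  rw [ex]
  refine exists_congr fun y1 => and_congr_right fun _ => ?_
  rw [al]
  refine forall_congr' fun y2 => imp_congr_right fun _ => ?_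
  rw [ex]
  refine exists_congr fun y3 => and_congr_right fun _ => ?_
  rw [al]
  exact forall_congr' fun y4 => imp_congr_right fun _ => h x y1 y2 y3 y4

end SE
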