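import Pool.Agent.H1.SE.TarU

/-! # UL: boldface separation and reduction -/

set_option linter.unusedVariables false

open Ordinal Order Set
open scoped ZFSet

namespace SE

open SF PSR

theorem pf_UL : T_UE → T_UF → T_UI → T_UJ → T_UK → T_UL := by
  intro UE UF UI UJ UK M hM
  obtain ⟨e, he, hE⟩ := UE M hM
  obtain ⟨hR, hF⟩ := UF e hE
  obtain ⟨hF1, hF2⟩ := hF M hM he
  -- codes
  have toH : ∀ a : ℕ → ℕ, M (gr a) → ∃ c, M c ∧ Rl c ∧ ∀ x, M (gr x) → (S4 M c (hx e x) ↔ Sig4 M a x) := by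
    intro a ha
    obtain ⟨c, hc, hc', h⟩ := UI M hM e he hE a ha
    exact ⟨c, hc, hc', UK M hM e he hE a c h⟩
  have toB : ∀ c, M c → Rl c → ∃ a : ℕ → ℕ, M (gr a) ∧ ∀ x, M (gr x) → (S4 M c (hx e x) ↔ Sig4 M a x) := by
    intro c hc hc'
    obtain ⟨a, ha, h⟩ := UJ M hM e he hE c hc hc'
    exact ⟨a, ha, UK M hM e he hE a c h⟩
  constructor
  · intro hS a b ha hb hd
    obtain ⟨a', ha', ra, ea⟩ := toH a ha
    obtain ⟨b', hb', rb, eb⟩ := toH b hb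
    obtain ⟨c', d', hc', rc, hd', rd, h⟩ := hS a' b' ha' ra hb' rb (by
      intro y hy ry
      obtain ⟨x, hx', rfl⟩ := hF2 y hy ry
      rw [ea x hx', eb x hx']
      exact hd x hx')
    obtain ⟨c, hc, ec⟩ := toB c' hc' rc
    obtain ⟨d, hd, ed⟩ := toB d' hd' rd
    refine ⟨c, d, hc, hd, fun x hx' => ?_⟩
    have h1 := h (hx e x) (hF1 x hx') (hR x).1
    rw [ea x hx', eb x hx', ec x hx', ed x hx'] at h1
    exact h1
  · rintro ⟨a', b', ha', ra, hb', rb, h⟩ hB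
    obtain ⟨a, ha, ea⟩ := toB a' ha' ra
    obtain ⟨b, hb, eb⟩ := toB b' hb' rb
    obtain ⟨c, d, hc, hd, hr⟩ := hB a b ha hb
    obtain ⟨c', hc', rc, ec⟩ := toH c hc
    obtain ⟨d', hd', rd, ed⟩ := toH d hd
    refine h c' d' hc' rc hd' rd fun y hy ry => ?_
    obtain ⟨x, hx', rfl⟩ := hF2 y hy ry
    rw [ea x hx', eb x hx', ec x hx', ed x hx']
    exact hr x hx'

end SE
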