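import Pool.Agent.H1.SE.TarU

/-! # UN: sections of open sets -/

set_option linter.unusedVariables false

open Ordinal Order Set
open scoped ZFSet

namespace SE

open SF PSR

theorem UN.ln : Primrec ln := Primrec.list_length.comp (Primrec.ofNat (List ℕ))

theorem UN.en : Primrec₂ en :=
  (Primrec.list_getD 0).comp₂ ((Primrec.ofNat (List ℕ)).comp₂ Primrec₂.left) Primrec₂.right

theorem UN.trp : Primrec₂ fun p z : ℕ => tr p.unpair.1 p.unpair.2 z := by
  have f1 : Primrec fun k : ℕ => k.unpair.1 := Primrec.fst.comp Primrec.unpair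
  have f2 : Primrec fun k : ℕ => k.unpair.2 := Primrec.snd.comp Primrec.unpair
  have g1 : Primrec fun k : ℕ => k.unpair.1.unpair.1 := f1.comp f1
  have g2 : Primrec fun k : ℕ => k.unpair.1.unpair.2 := f2.comp f1
  have h1 : Primrec fun k : ℕ => k.unpair.1.unpair.1.unpair.1 := f1.comp g1
  have h2 : Primrec fun k : ℕ => k.unpair.1.unpair.1.unpair.2 := f2.comp g1
  have i1 : Primrec fun k : ℕ => k.unpair.1.unpair.1.unpair.1.unpair.1 := f1.comp h1
  have i2 : Primrec fun k : ℕ => k.unpair.1.unpair.1.unpair.1.unpair.2 := f2.comp h1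
  have P : Primrec₂ Nat.pair := Primrec₂.natPair
  have a : Primrec fun q : ℕ × ℕ => Nat.pair q.1.unpair.1 q.1.unpair.2 :=
    P.comp (f1.comp Primrec.fst) (f2.comp Primrec.fst)
  have b1 := P.comp a (i1.comp (Primrec.snd (α := ℕ) (β := ℕ)))
  have b2 := P.comp b1 (i2.comp (Primrec.snd (α := ℕ) (β := ℕ)))
  have b3 := P.comp b2 (h2.comp (Primrec.snd (α := ℕ) (β := ℕ)))
  have b4 := P.comp b3 (g2.comp (Primrec.snd (α := ℕ) (β := ℕ)))
  have b5 := P.comp b4 (f2.comp (Primrec.snd (α := ℕ) (β := ℕ)))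
  exact b5.to₂

theorem UN.len_enc (l : List ℕ) : SE.ln (Encodable.encode l) = l.length := by
  unfold SE.ln
  rw [Denumerable.ofNat_encode]

theorem UN.en_enc (l : List ℕ) (i : ℕ) : SE.en (Encodable.encode l) i = l.getD i 0 := by
  unfold SE.en
  rw [Denumerable.ofNat_encode]

theorem UN.ext {q : ℕ} {l : List ℕ} (h1 : SE.ln q = l.length)
    (h2 : ∀ i < l.length, SE.en q i = l.getD i 0) : q = Encodable.encode l := by
  have : Denumerable.ofNat (List ℕ) q = l := by
    refine List.ext_getElem h1 fun i hi hi' => ?_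
    have := h2 i hi'
    unfold SE.en at this
    rw [List.getD_eq_getElem _ _ hi, List.getD_eq_getElem _ _ hi'] at this
    exact this
  rw [← this, Denumerable.encode_ofNat]

/-- the section -/
def UN.sc (a b c : ℕ → ℕ) (k : ℕ) : ℕ :=
  c (Encodable.encode ((List.range (SE.ln k)).map fun i => tr (a i) (b i) (SE.en k i)))

theorem UN.op (a b c x y1 y2 y3 y4 : ℕ → ℕ) :
    Op (UN.sc a b c) (p5 x y1 y2 y3 y4) ↔ Op c (p5 (pr (pr a b) x) y1 y2 y3 y4) := by
  unfold Op
  refine exists_congr fun m => ?_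
  unfold UN.sc
  rw [UN.len_enc, List.length_map, List.length_range]
  have : (List.range m).map (fun i => tr (a i) (b i)
      (SE.en (Encodable.encode ((List.range m).map (p5 x y1 y2 y3 y4))) i)) =
      (List.range m).map (p5 (pr (pr a b) x) y1 y2 y3 y4) := by
    refine List.map_congr_left fun i hi => ?_
    rw [List.mem_range] at hi
    rw [UN.en_enc, List.getD_eq_getElem _ _ (by simpa using hi), List.getElem_map,
      List.getElem_range]
    simp only [tr, p5, pr, Nat.unpair_pair]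
  rw [this]

theorem pf_UN : T_UA → T_UB → T_UC → T_UN := by
  intro UA UB UC M hM a b c ha hb hc
  obtain ⟨ub1, ub2⟩ := UB
  obtain ⟨ap, -, -, ucR, ucF⟩ := UC
  obtain ⟨ua0, -, -, -, uap, -⟩ := UA
  refine ⟨?_, UN.sc a b c, ?_, UN.op a b c⟩
  · refine ucF (fun _ w => nS (Nat.pair (nn (app (w 1) (w 0))) (nn (app (w 2) (w 0))))) ?_ M hM
      (cons (gr a) (cons (gr b) fun _ => ∅)) (In.cons (In.cons (fun _ => hM.mempty) hb) ha) _ ?_
    · exact Tm.at2 (F := fun _ x y => nS (Nat.pair (nn x) (nn y))) uap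
        (Tm.app (Tm.var 1) (Tm.var 0)) (Tm.app (Tm.var 2) (Tm.var 0))
    · intro n
      show nS (Nat.pair (nn (app (gr a) (nS n))) (nn (app (gr b) (nS n)))) = _
      rw [ap, ap, nn_nS, nn_nS]
      rfl
  · -- the graph
    refine ucR (fun _ w => ∃ q ∈ om, nS (SE.ln (nn q)) = nS (SE.ln (nn (w 0))) ∧
      (∀ i ∈ nS (SE.ln (nn (w 0))), nS (SE.en (nn q) (nn i)) =
        nS ((fun p z : ℕ => tr p.unpair.1 p.unpair.2 z)
          (Nat.pair (nn (app (w 2) i)) (nn (app (w 3) i))) (SE.en (nn (w 0)) (nn i)))) ∧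
      app (w 4) q = w 1) ?_ M hM
      (cons (gr a) (cons (gr b) (cons (gr c) fun _ => ∅)))
      (In.cons (In.cons (In.cons (fun _ => hM.mempty) hc) hb) ha) _ ?_
    · have tln : ∀ i : ℕ, Tm ZFm (fun _ w => nS (SE.ln (nn (w i)))) := fun i =>
        Tm.at1 (F := fun _ x => nS (SE.ln (nn x))) (ub1 _ UN.ln) (Tm.var i)
      have ten : ∀ i j : ℕ, Tm ZFm (fun _ w => nS (SE.en (nn (w i)) (nn (w j)))) := fun i j =>
        Tm.at2 (F := fun _ x y => nS (SE.en (nn x) (nn y))) (ub2 _ UN.en) (Tm.var i) (Tm.var j)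
      refine Dfb.bex ktr_zfm Tm.om (R := fun _ u => nS (SE.ln (nn (u 0))) =
        nS (SE.ln (nn (u 1))) ∧
        (∀ i ∈ nS (SE.ln (nn (u 1))), nS (SE.en (nn (u 0)) (nn i)) =
        nS ((fun p z : ℕ => tr p.unpair.1 p.unpair.2 z)
          (Nat.pair (nn (app (u 3) i)) (nn (app (u 4) i))) (SE.en (nn (u 1)) (nn i)))) ∧
        app (u 5) (u 0) = u 2) ?_
      refine (Dfb.eq (tln 0) (tln 1)).and (Dfb.and ?_
        (Dfb.eq (Tm.app (Tm.var 5) (Tm.var 0)) (Tm.var 2)))
      refine Dfb.ball ktr_zfm (tln 1) (R := fun _ s => nS (SE.en (nn (s 1)) (nn (s 0))) =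
        nS ((fun p z : ℕ => tr p.unpair.1 p.unpair.2 z)
          (Nat.pair (nn (app (s 4) (s 0))) (nn (app (s 5) (s 0))))
          (SE.en (nn (s 2)) (nn (s 0))))) ?_
      refine Dfb.eq (ten 1 0) ?_
      refine (Tm.at2 (F := fun _ x y => nS ((fun p z : ℕ => tr p.unpair.1 p.unpair.2 z)
        (nn x) (nn y))) (ub2 _ UN.trp)
        (Tm.at2 (F := fun _ x y => nS (Nat.pair (nn x) (nn y))) uap
          (Tm.app (Tm.var 4) (Tm.var 0)) (Tm.app (Tm.var 5) (Tm.var 0))) (ten 2 0)).congr
        fun M k v hv => ?_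
      simp only [nn_nS]
    · intro n k
      show (∃ q ∈ om, nS (SE.ln (nn q)) = nS (SE.ln (nn (nS n))) ∧
        (∀ i ∈ nS (SE.ln (nn (nS n))), nS (SE.en (nn q) (nn i)) =
        nS ((fun p z : ℕ => tr p.unpair.1 p.unpair.2 z)
          (Nat.pair (nn (app (gr a) i)) (nn (app (gr b) i))) (SE.en (nn (nS n)) (nn i)))) ∧
        app (gr c) q = nS k) ↔ _
      rw [nn_nS]
      set l := (List.range (SE.ln n)).map fun i => tr (a i) (b i) (SE.en n i) with hl
      have hlen : l.length = SE.ln n := by rw [hl, List.length_map, List.length_range]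
      have hget : ∀ i < SE.ln n, l.getD i 0 = tr (a i) (b i) (SE.en n i) := by
        intro i hi
        rw [List.getD_eq_getElem _ _ (by rw [hlen]; exact hi)]
        simp only [hl, List.getElem_map, List.getElem_range]
      have hsc : UN.sc a b c n = c (Encodable.encode l) := rfl
      rw [hsc]
      constructor
      · rintro ⟨q', hq', h1, h2, h3⟩
        obtain ⟨q, rfl⟩ := mem_om.1 hq'
        rw [nn_nS, nS_inj] at h1
        have hq : q = Encodable.encode l := by
          refine UN.ext (h1.trans hlen.symm) fun i hi => ?_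
          rw [hlen] at hi
          have := h2 (nS i) (nS_mem_nS.2 hi)
          rw [nS_inj, nn_nS, nn_nS, ap, ap, nn_nS, nn_nS] at this
          rw [this, hget i hi]
          simp only [Nat.unpair_pair]
        rw [ap, nS_inj, hq] at h3
        exact h3
      · intro h
        refine ⟨nS (Encodable.encode l), nS_mem_om _, ?_, ?_, ?_⟩
        · rw [nn_nS, UN.len_enc, hlen]
        · intro i' hi'
          obtain ⟨i, rfl⟩ : ∃ i : ℕ, i' = nS i := by
            obtain ⟨o, ho, rfl⟩ := Ordinal.mem_toZFSet_iff.1 hi'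
            obtain ⟨j, rfl⟩ := Ordinal.lt_omega0.1 (ho.trans (Ordinal.natCast_lt_omega0 _))
            exact ⟨j, rfl⟩
          have hi := nS_mem_nS.1 hi'
          rw [nS_inj, nn_nS, nn_nS, ap, ap, nn_nS, nn_nS, UN.en_enc, hget i hi]
          simp only [Nat.unpair_pair]
        · rw [ap, h]

end SE
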