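import Pool.Agent.H1.SE.TarU

/-! # UO: lightface and boldface reduction -/

set_option linter.unusedVariables false

open Ordinal Order Set
open scoped ZFSet

namespace SE

open SF PSR

theorem UO.sig {M : V → Prop} {u u' : ℕ → ℕ} {x x' : ℕ → ℕ}
    (h : ∀ y1 y2 y3 y4 : ℕ → ℕ, Op u (p5 x y1 y2 y3 y4) ↔ Op u' (p5 x' y1 y2 y3 y4)) :
    Sig4 M u x ↔ Sig4 M u' x' := by
  unfold Sig4
  refine exists_congr fun y1 => and_congr_right fun _ => forall_congr' fun y2 =>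
    imp_congr_right fun _ => exists_congr fun y3 => and_congr_right fun _ =>
    forall_congr' fun y4 => imp_congr_right fun _ => h y1 y2 y3 y4

theorem pf_UO : T_UD → T_UM → T_UN → T_UO := by
  intro UD UM UN M hM hl a b ha hb
  obtain ⟨u0, u1, hu0, hu1, hu⟩ := UM
  obtain ⟨c, d, hc, hd, hr⟩ := hl u0 u1 hu0 hu1
  obtain ⟨hab, c', hc', hcc⟩ := UN M hM a b c ha hb (UD M hM c hc)
  obtain ⟨-, d', hd', hdd⟩ := UN M hM a b d ha hb (UD M hM d hd)
  refine ⟨c', d', hc', hd', fun x hx => ?_⟩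
  obtain ⟨hx', -⟩ := UN M hM (pr a b) x c hab hx (UD M hM c hc)
  have h := hr (pr (pr a b) x) hx'
  have e1 : Pi4 M c' x ↔ Pi4 M c (pr (pr a b) x) := not_congr (UO.sig fun y1 y2 y3 y4 => hcc x y1 y2 y3 y4)
  have e2 : Pi4 M d' x ↔ Pi4 M d (pr (pr a b) x) := not_congr (UO.sig fun y1 y2 y3 y4 => hdd x y1 y2 y3 y4)
  have e3 : Pi4 M u0 (pr (pr a b) x) ↔ Pi4 M a x :=
    not_congr (UO.sig fun y1 y2 y3 y4 => (hu a b x y1 y2 y3 y4).1)
  have e4 : Pi4 M u1 (pr (pr a b) x) ↔ Pi4 M b x :=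
    not_congr (UO.sig fun y1 y2 y3 y4 => (hu a b x y1 y2 y3 y4).2)
  rw [e3, e4] at h
  rw [e1, e2]
  exact h

end SE
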