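import Pool.Agent.H1.SE.TarU

/-! # UZ: assembly of part U -/

set_option linter.unusedVariables false

open Ordinal Order Set
open scoped ZFSet

namespace SE

open SF PSR

theorem pf_UZ : T_UL → T_UO → T_U := by
  intro UL UO W hW hS hN
  have hM : ZFm W := hW.toZFCm.toZFm
  obtain ⟨h1, h2⟩ := UL W hM
  exact ⟨h1 hS, fun h => h2 hN (UO W hM h), h2 hN⟩

end SE
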