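import Pool.Agent.H1.SE.UA
import Pool.Agent.H1.SE.UB
import Pool.Agent.H1.SE.UC
import Pool.Agent.H1.SE.UD
import Pool.Agent.H1.SE.UF
import Pool.Agent.H1.SE.UH
import Pool.Agent.H1.SE.UI
import Pool.Agent.H1.SE.UJ
import Pool.Agent.H1.SE.UK
import Pool.Agent.H1.SE.UL
import Pool.Agent.H1.SE.UN
import Pool.Agent.H1.SE.UO
import Pool.Agent.H1.SE.UZ
import Pool.Agent.H60.SE.UE
import Pool.Agent.H60.SE.UM

/-! # Part U: assembly -/

namespace SE

theorem U_all (hAA : T_AA) (hAG : T_AG) (hDJ : CAA.T_DJ) (hUG : T_UG) : T_U := by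
  have UA := pf_UA
  have UB := pf_UB UA
  have UC := pf_UC
  have UD := pf_UD UA UB UC
  have UE := pf_UE hAA hDJ
  have UF := pf_UF hAG UC
  have UH := pf_UH UA UB
  have UI := pf_UI hAA hAG UC hUG UH
  have UJ := pf_UJ UC hUG UH
  have UK := pf_UK UF
  have UL := pf_UL UE UF UI UJ UK
  have UO := pf_UO UD pf_UM (pf_UN UA UB UC)
  exact pf_UZ UL UO

end SE
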